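import Pool.Agent.Lib.CookLevin.Tableau

/-!
# From `FinTM2` to stack machines with finite control, and the clauses for a verifier
-/

namespace Pool.Agent.Lib.CookLevin

open Turing Pool.Agent.Lib.PolyTime N68a2faeb N487b59b3

section

variable (tm : FinTM2)

/-- control states: statement (or halted) and internal state -/
abbrev Ctl : Type := Option (TM2.Stmt tm.Γ tm.Λ tm.σ) × tm.σ

/-- symbols together with the stack they belong to -/
abbrev Sym : Type := Σ k, tm.Γ k

/-- read a symbol of stack `k` -/
def proj (k : tm.K) (o : Option (Sym tm)) : Option (tm.Γ k) :=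
  o.bind fun a => if h : a.1 = k then some (h ▸ a.2) else none

/-- the stack machine performing one statement of `tm` at a time -/
def mm : MM (Ctl tm) tm.K (Sym tm) where
  stk c := match c.1 with
    | some (.push k _ _) => k
    | some (.peek k _ _) => k
    | some (.pop k _ _) => k
    | _ => tm.k₀
  nxt c o := match c.1 with
    | none => (none, c.2)
    | some (.push _ _ q) => (some q, c.2)
    | some (.peek k f q) => (some q, f c.2 (proj tm k o))
    | some (.pop k f q) => (some q, f c.2 (proj tm k o))
    | some (.load a q) => (some q, a c.2)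
    | some (.branch p q₁ q₂) => (some (cond (p c.2) q₁ q₂), c.2)
    | some (.goto f) => (some (tm.m (f c.2)), c.2)
    | some .halt => (none, c.2)
  act c _ := match c.1 with
    | some (.push k f _) => .push ⟨k, f c.2⟩
    | some (.pop _ _ _) => .pop
    | _ => .keep

/-- stacks of `tm` as stacks of `mm` -/
def emb (S : ∀ k, List (tm.Γ k)) : tm.K → List (Sym tm) := fun k => (S k).map (Sigma.mk k)

theorem proj_head (S : ∀ k, List (tm.Γ k)) (k : tm.K) :
    proj tm k (emb tm S k).head? = (S k).head? := by
  unfold emb proj
  cases S k with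
  | nil => rfl
  | cons a l => simp

theorem emb_update (S : ∀ k, List (tm.Γ k)) (k : tm.K) (l : List (tm.Γ k)) :
    emb tm (Function.update S k l) = Function.update (emb tm S) k (l.map (Sigma.mk k)) := by
  funext k'
  unfold emb
  by_cases h : k' = k
  · subst h; simp
  · simp [h]

/-- the configuration of `mm` for a configuration of `tm` -/
def mcfg (c : tm.Cfg) : Ctl tm × (tm.K → List (Sym tm)) :=
  ((c.l.map tm.m, c.var), emb tm c.stk)

/-- number of micro steps of a statement -/
def msize {K : Type} {Γ : K → Type} {Λ σ : Type} : TM2.Stmt Γ Λ σ → ℕ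
  | .push _ _ q => msize q + 1
  | .peek _ _ q => msize q + 1
  | .pop _ _ q => msize q + 1
  | .load _ q => msize q + 1
  | .branch _ q₁ q₂ => max (msize q₁) (msize q₂) + 1
  | .goto _ => 1
  | .halt => 1

theorem micro_stepAux (q : TM2.Stmt tm.Γ tm.Λ tm.σ) : ∀ (v : tm.σ) (S : ∀ k, List (tm.Γ k)),
    ∃ n ≤ msize q, (mm tm).step^[n] ((some q, v), emb tm S) = mcfg tm (TM2.stepAux q v S) := by
  induction q with
  | push k f q ih =>
    intro v S
    obtain ⟨n, hn, h⟩ := ih v (Function.update S k (f v :: S k))
    refine ⟨n + 1, by simp only [msize]; omega, ?_⟩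
    rw [Function.iterate_succ_apply, TM2.stepAux, ← h]
    congr 1
    simp only [MM.step, mm, Act.app]
    rw [emb_update]
    rfl
  | peek k f q ih =>
    intro v S
    obtain ⟨n, hn, h⟩ := ih (f v (S k).head?) S
    refine ⟨n + 1, by simp only [msize]; omega, ?_⟩
    rw [Function.iterate_succ_apply, TM2.stepAux, ← h]
    congr 1
    simp only [MM.step, mm, Act.app]
    rw [proj_head, Function.update_eq_self]
  | pop k f q ih =>
    intro v S
    obtain ⟨n, hn, h⟩ := ih (f v (S k).head?) (Function.update S k (S k).tail)
    refine ⟨n + 1, by simp only [msize]; omega, ?_⟩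
    rw [Function.iterate_succ_apply, TM2.stepAux, ← h]
    congr 1
    simp only [MM.step, mm, Act.app]
    rw [proj_head, emb_update, List.map_tail]
    rfl
  | load a q ih =>
    intro v S
    obtain ⟨n, hn, h⟩ := ih (a v) S
    refine ⟨n + 1, by simp only [msize]; omega, ?_⟩
    rw [Function.iterate_succ_apply, TM2.stepAux, ← h]
    congr 1
    simp only [MM.step, mm, Act.app]
    rw [Function.update_eq_self]
  | branch p q₁ q₂ ih1 ih2 =>
    intro v S
    cases hp : p v with
    | true =>
      obtain ⟨n, hn, h⟩ := ih1 v S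
      refine ⟨n + 1, by simp only [msize]; omega, ?_⟩
      rw [Function.iterate_succ_apply, TM2.stepAux, hp, cond_true, ← h]
      congr 1
      simp only [MM.step, mm, Act.app, hp, cond_true]
      rw [Function.update_eq_self]
    | false =>
      obtain ⟨n, hn, h⟩ := ih2 v S
      refine ⟨n + 1, by simp only [msize]; omega, ?_⟩
      rw [Function.iterate_succ_apply, TM2.stepAux, hp, cond_false, ← h]
      congr 1
      simp only [MM.step, mm, Act.app, hp, cond_false]
      rw [Function.update_eq_self]
  | goto f =>
    intro v S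
    refine ⟨1, by simp [msize], ?_⟩
    rw [TM2.stepAux, Function.iterate_one]
    simp only [MM.step, mm, Act.app, mcfg]
    rw [Function.update_eq_self]
    rfl
  | halt =>
    intro v S
    refine ⟨1, by simp [msize], ?_⟩
    rw [TM2.stepAux, Function.iterate_one]
    simp only [MM.step, mm, Act.app, mcfg]
    rw [Function.update_eq_self]
    rfl

/-- maximal number of micro steps for one step -/
noncomputable def mdeg : ℕ := Finset.univ.sup fun l => msize (tm.m l)

theorem micro_run : ∀ (n : ℕ) (c c' : tm.Cfg),
    (flip bind tm.step)^[n] (some c) = some c' →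
      ∃ n' ≤ n * mdeg tm, (mm tm).step^[n'] (mcfg tm c) = mcfg tm c' := by
  intro n
  induction n with
  | zero =>
    intro c c' h
    simp only [Function.iterate_zero, id_eq, Option.some.injEq] at h
    subst h
    exact ⟨0, by simp, rfl⟩
  | succ n ih =>
    intro c c' h
    rw [Function.iterate_succ_apply] at h
    rcases c with ⟨l, v, S⟩
    cases l with
    | none =>
      exfalso
      have hnone : ∀ m : ℕ, (flip bind tm.step)^[m] (none : Option tm.Cfg) = none := by
        intro m
        induction m with
        | zero => rfl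
        | succ m ihm => rw [Function.iterate_succ_apply]; exact ihm
      have e : flip bind tm.step (some (⟨none, v, S⟩ : tm.Cfg)) = none := rfl
      rw [e, hnone] at h
      cases h
    | some l =>
      have e : flip bind tm.step (some (⟨some l, v, S⟩ : tm.Cfg)) =
          some (TM2.stepAux (tm.m l) v S) := rfl
      rw [e] at h
      obtain ⟨n', hn', h1⟩ := ih _ c' h
      obtain ⟨m, hm, h2⟩ := micro_stepAux tm (tm.m l) v S
      refine ⟨n' + m, ?_, ?_⟩
      · have h3 : msize (tm.m l) ≤ mdeg tm :=
          Finset.le_sup (f := fun l => msize (tm.m l)) (Finset.mem_univ l)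
        have h4 : (n + 1) * mdeg tm = n * mdeg tm + mdeg tm := by ring
        omega
      · rw [Function.iterate_add_apply, ← h1, ← h2]
        rfl

theorem step_halted (c : tm.Cfg) (hc : c.l = none) (n : ℕ) :
    (mm tm).step^[n] (mcfg tm c) = mcfg tm c := by
  induction n with
  | zero => rfl
  | succ n ih =>
    rw [Function.iterate_succ_apply', ih]
    simp only [MM.step, mm, Act.app, mcfg, hc, Option.map_none]
    rw [Function.update_eq_self]

theorem run_halted (n : ℕ) (c c' : tm.Cfg) (hc : c'.l = none)
    (h : (flip bind tm.step)^[n] (some c) = some c') (T : ℕ) (hT : n * mdeg tm ≤ T) :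
    (mm tm).step^[T] (mcfg tm c) = mcfg tm c' := by
  obtain ⟨n', hn', h1⟩ := micro_run tm n c c' h
  obtain ⟨d, rfl⟩ := Nat.exists_eq_add_of_le (hn'.trans hT)
  rw [add_comm, Function.iterate_add_apply, h1]
  exact step_halted tm c' hc d

/-- the control states that occur -/
noncomputable def ctls : List (Ctl tm) :=
  ((TM2.stmts tm.m Finset.univ) ×ˢ (Finset.univ : Finset tm.σ)).toList

/-- the symbols that are pushed -/
noncomputable def pushSyms : List (Sym tm) :=
  (TM2.stmts tm.m Finset.univ).toList.flatMap fun s =>
    match s with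
    | some (.push k f _) => (Finset.univ : Finset tm.σ).toList.map fun v => ⟨k, f v⟩
    | _ => []

theorem mem_ctls (c : Ctl tm) : c ∈ ctls tm ↔ c.1 ∈ TM2.stmts tm.m Finset.univ := by
  unfold ctls
  rw [Finset.mem_toList, Finset.mem_product]
  simp

theorem none_mem_stmts : (none : Option (TM2.Stmt tm.Γ tm.Λ tm.σ)) ∈
    TM2.stmts tm.m Finset.univ := by
  simp [TM2.stmts]

theorem m_mem_stmts (l : tm.Λ) : some (tm.m l) ∈ TM2.stmts tm.m Finset.univ := by
  simp only [TM2.stmts, Finset.mem_insertNone, Finset.mem_biUnion, Option.mem_def,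
    Option.some.injEq]
  rintro a rfl
  exact ⟨l, Finset.mem_univ l, TM2.stmts₁_self⟩

theorem nxt_mem_ctls (c : Ctl tm) (hc : c ∈ ctls tm) (o : Option (Sym tm)) :
    (mm tm).nxt c o ∈ ctls tm := by
  classical
  rw [mem_ctls] at hc ⊢
  obtain ⟨s, v⟩ := c
  simp only at hc
  cases s with
  | none => exact none_mem_stmts tm
  | some q =>
    cases q with
    | push k f q => exact TM2.stmts_trans (by simp [TM2.stmts₁, TM2.stmts₁_self]) hc
    | peek k f q => exact TM2.stmts_trans (by simp [TM2.stmts₁, TM2.stmts₁_self]) hc
    | pop k f q => exact TM2.stmts_trans (by simp [TM2.stmts₁, TM2.stmts₁_self]) hc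
    | load a q => exact TM2.stmts_trans (by simp [TM2.stmts₁, TM2.stmts₁_self]) hc
    | branch p q₁ q₂ =>
      simp only [mm]
      cases p v
      · exact TM2.stmts_trans (by simp [TM2.stmts₁, TM2.stmts₁_self]) hc
      · exact TM2.stmts_trans (by simp [TM2.stmts₁, TM2.stmts₁_self]) hc
    | goto f => exact m_mem_stmts tm (f v)
    | halt => exact none_mem_stmts tm

theorem push_mem (c : Ctl tm) (hc : c ∈ ctls tm) (o : Option (Sym tm)) (b : Sym tm)
    (hb : (mm tm).act c o = .push b) : b ∈ pushSyms tm := by
  rw [mem_ctls] at hc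
  obtain ⟨s, v⟩ := c
  simp only at hc
  unfold pushSyms
  rw [List.mem_flatMap]
  refine ⟨s, Finset.mem_toList.mpr hc, ?_⟩
  cases s with
  | none => simp [mm] at hb
  | some q =>
    cases q with
    | push k f q =>
      simp only [mm, Act.push.injEq] at hb
      simp only [List.mem_map, Finset.mem_toList, Finset.mem_univ, true_and]
      exact ⟨v, hb⟩
    | peek k f q => simp [mm] at hb
    | pop k f q => simp [mm] at hb
    | load a q => simp [mm] at hb
    | branch p q₁ q₂ => simp [mm] at hb
    | goto f => simp [mm] at hb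
    | halt => simp [mm] at hb

theorem mm_closed (more : List (Sym tm)) :
    (mm tm).Closed (ctls tm) (Finset.univ : Finset tm.K).toList (pushSyms tm ++ more) where
  ks k := by simp
  nxtNone c hc := nxt_mem_ctls tm c hc none
  nxtSome c hc a _ := nxt_mem_ctls tm c hc (some a)
  pushNone c hc b hb := List.mem_append_left _ (push_mem tm c hc _ b hb)
  pushSome c hc _ _ b hb := List.mem_append_left _ (push_mem tm c hc _ b hb)

end

/-- an injective numbering on a list -/
theorem exists_index {X : Type} (l : List X) :
    ∃ f : X → ℕ, ∀ a ∈ l, ∀ b ∈ l, f a = f b → a = b := by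
  classical
  refine ⟨fun a => l.idxOf a, ?_⟩
  intro a ha b hb h
  exact (List.idxOf_inj ha).mp h

/-- an injective numbering of a finite type -/
theorem exists_index_fin (X : Type) [Fintype X] : ∃ f : X → ℕ, Function.Injective f :=
  ⟨fun a => ((Fintype.equivFin X) a : ℕ), fun _ _ h =>
    (Fintype.equivFin X).injective (Fin.ext h)⟩

/-- Clauses describing the accepting runs of a polynomial time predicate on an input given by
a template. -/
theorem clauses_of_polyTime {α : Type} [N487b59b3 α] {V : α → Bool} (hV : IsPolyTime V) :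
    ∃ (p : Polynomial ℕ)
      (F : ℕ → List ℕ → List (Bool × Bool × ℕ) → List (List (ℕ × Bool))),
      (∀ {γ : Type} [N487b59b3 γ] {T : γ → ℕ} {js : γ → List ℕ}
        {tp : γ → List (Bool × Bool × ℕ)}, IsPolyTime (fun x => List.range (T x)) →
          IsPolyTime js → IsPolyTime tp → IsPolyTime (fun x => F (T x) (js x) (tp x))) ∧
      ∀ (T : ℕ) (js : List ℕ) (tp : List (Bool × Bool × ℕ)), p.eval tp.length ≤ T →
        (∀ j ≤ tp.length + T, j ∈ js) →
        (∀ β, Sat β (F T js tp) → ∀ a, tp.map (ev (fun i => β (vIn i))) = bitEncode a →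
          V a = true) ∧
        (∀ z a, tp.map (ev z) = bitEncode a → V a = true →
          ∃ β : ℕ → Bool, (∀ i, β (vIn i) = z i) ∧ Sat β (F T js tp)) := by
  obtain ⟨⟨⟨tm, inA, outA⟩, time, hout⟩⟩ := hV
  simp only at hout
  set sb : Bool → Sym tm := fun b => ⟨tm.k₀, inA.invFun b⟩ with hsb
  set sf : Sym tm := ⟨tm.k₁, outA.invFun false⟩ with hsf
  set as : List (Sym tm) := pushSyms tm ++ [sb true, sb false, sf] with has
  obtain ⟨ci, hci⟩ := exists_index (ctls tm)
  obtain ⟨ai, hai⟩ := exists_index as
  obtain ⟨ki, hki⟩ := exists_index_fin tm.K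
  set c₀ : Ctl tm := (some (tm.m tm.main), tm.initialState) with hc₀
  have hM : (mm tm).Closed (ctls tm) (Finset.univ : Finset tm.K).toList as :=
    mm_closed tm _
  have hc₀' : c₀ ∈ ctls tm := by
    rw [mem_ctls]
    exact m_mem_stmts tm tm.main
  have hsb' : ∀ b, sb b ∈ as := by
    intro b
    rw [has]
    cases b <;> simp
  have hsf' : sf ∈ as := by
    rw [has]
    simp
  have hcfg : ∀ (tp : List (Bool × Bool × ℕ)) (z : ℕ → Bool) (l : List Bool),
      tp.map (ev z) = l → cfg0 c₀ tm.k₀ sb tp z =
        mcfg tm (initList tm (l.map inA.invFun)) := by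
    intro tp z l h
    unfold cfg0 mcfg initList
    simp only [hc₀, Option.map_some]
    refine Prod.ext rfl ?_
    funext k
    by_cases hk : k = tm.k₀
    · subst hk
      simp only [emb, if_true]
      rw [← h]
      simp [hsb]
    · simp [emb, hk]
  have hfinal : ∀ (tp : List (Bool × Bool × ℕ)) (z : ℕ → Bool) (a : α) (T : ℕ),
      tp.map (ev z) = bitEncode a → (Polynomial.C (mdeg tm) * time).eval tp.length ≤ T →
      ((((mm tm).step^[T] (cfg0 c₀ tm.k₀ sb tp z)).2 tm.k₁).reverse[0]? ≠ some sf ↔
        V a = true) := by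
    intro tp z a T h hT
    have hlen : tp.length = (bitEncode a).length := by rw [← h, List.length_map]
    obtain ⟨⟨n, hn⟩, hnt⟩ := hout a
    rw [hcfg tp z _ h]
    have hn' : (flip bind tm.step)^[n] (some (initList tm ((bitEncode a).map inA.invFun))) =
        some (haltList tm ((bitEncode (V a)).map outA.invFun)) := hn
    rw [run_halted tm n _ _ rfl hn' T (by
      rw [Polynomial.eval_mul, Polynomial.eval_C] at hT
      refine le_trans ?_ hT
      rw [mul_comm]
      refine Nat.mul_le_mul_left _ ?_
      rw [hlen]
      exact hnt)]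
    have hstk : (mcfg tm (haltList tm ((bitEncode (V a)).map outA.invFun))).2 tm.k₁ =
        [⟨tm.k₁, outA.invFun (V a)⟩] := by
      simp only [mcfg, emb, haltList]
      have : (bitEncode (V a)) = [V a] := rfl
      rw [this]
      simp
    rw [hstk, hsf]
    simp only [List.reverse_singleton, List.length_cons, List.length_nil, Nat.reduceAdd,
      Nat.lt_add_one, getElem?_pos, List.getElem_cons_zero, ne_eq, Option.some.injEq,
      Sigma.mk.injEq, heq_eq_eq, true_and]
    constructor
    · intro h
      cases hVa : V a with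
      | true => rfl
      | false => rw [hVa] at h; exact absurd rfl h
    · intro h h'
      rw [h] at h'
      have := outA.symm.injective h'
      cases this
  refine ⟨Polynomial.C (mdeg tm) * time, fun T js tp => tabCl (mm tm) ci ki ai (ctls tm)
    (Finset.univ : Finset tm.K).toList as c₀ tm.k₀ tm.k₁ sb sf T js tp, ?_, ?_⟩
  · intro γ _ T js tp hT hjs htp
    exact pt_tabCl _ _ _ _ _ _ _ _ hT hjs htp
  · intro T js tp hT hjs
    constructor
    · intro β hβ a ha
      exact (hfinal tp _ a T ha hT).mp (tab_complete hM hc₀' hsb' hjs hβ)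
    · intro z a ha hVa
      exact tab_sound hM hc₀' hsb' hsf' hci hki hai z ((hfinal tp z a T ha hT).mpr hVa)

end Pool.Agent.Lib.CookLevin
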