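import Pool.Agent.Lib.CookLevin.Machine

/-!
# The Cook-Levin theorem, for `NP` and for the class `Pi2`
-/

namespace Pool.Agent.Lib.CookLevin

open Turing Pool.Agent.Lib.PolyTime N68a2faeb N487b59b3

/-- the marked bits of a list -/
def unpad (l : List (Bool × Bool)) : List Bool := (l.filter (fun x => x.1)).map (fun x => x.2)

theorem unpad_length (l : List (Bool × Bool)) : (unpad l).length ≤ l.length := by
  unfold unpad
  rw [List.length_map]
  exact List.length_filter_le _ _

/-- bits given by the variables `name (j, i)`, `name (j + 1, i)`, for `i < n` -/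
def bits (j n : ℕ) (z : ℕ → Bool) : List (Bool × Bool) :=
  (List.range n).map fun i => (z (name (j, i)), z (name (j + 1, i)))

theorem bits_length (j n : ℕ) (z : ℕ → Bool) : (bits j n z).length = n := by
  simp [bits]

theorem unpad_bits {j n : ℕ} {z : ℕ → Bool} {w : List Bool} (hw : w.length ≤ n)
    (h1 : ∀ i, z (name (j, i)) = decide (i < w.length))
    (h2 : ∀ i, z (name (j + 1, i)) = w.getD i false) : unpad (bits j n z) = w := by
  unfold bits unpad
  simp only [h1, h2]
  clear h1 h2 z j
  induction w generalizing n with
  | nil => simp
  | cons b w ih =>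
    cases n with
    | zero => simp at hw
    | succ n =>
      rw [List.range_succ_eq_map]
      simp only [List.length_cons, List.map_cons, Nat.zero_lt_succ,
        decide_true, List.getD_cons_zero, List.map_map]
      rw [List.filter_cons_of_pos rfl, List.map_cons]
      congr 1
      have := ih (n := n) (by simpa using hw)
      rw [← this]
      congr 1
      simp only [Function.comp_def, List.getD_cons_succ, Nat.add_lt_add_iff_right,
        Nat.succ_eq_add_one]
      rw [this]

/-- template of the encoding of `bits j n` -/
def bitsT (j : ℕ) (r : List ℕ) : List (Bool × Bool × ℕ) :=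
  r.flatMap fun i => [(false, true, 0), (false, true, 0), (false, true, 0),
    (true, false, name (j, i)), (false, true, 0), (false, false, 0), (false, true, 0),
    (true, false, name (j + 1, i)), (false, false, 0)]

/-- template of the delimited list -/
def delT (l : List (Bool × Bool × ℕ)) : List (Bool × Bool × ℕ) :=
  (l.flatMap fun e => [(false, true, 0), e]) ++ [(false, false, 0)]

/-- template of a constant list -/
def constT (l : List Bool) : List (Bool × Bool × ℕ) := l.map fun b => (false, b, 0)

theorem map_ev_bitsT (j n : ℕ) (z : ℕ → Bool) :
    (bitsT j (List.range n)).map (ev z) = bitEncode (bits j n z) := by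
  have h : ∀ r : List ℕ, (bitsT j r).map (ev z) =
      bitEncode (r.map fun i => (z (name (j, i)), z (name (j + 1, i)))) := by
    intro r
    induction r with
    | nil => rfl
    | cons i r ih =>
      have e1 : bitsT j (i :: r) = [(false, true, 0), (false, true, 0), (false, true, 0),
        (true, false, name (j, i)), (false, true, 0), (false, false, 0), (false, true, 0),
        (true, false, name (j + 1, i)), (false, false, 0)] ++ bitsT j r := rfl
      rw [e1, List.map_append, ih]
      rfl
  exact h _

theorem map_ev_delT (l : List (Bool × Bool × ℕ)) (z : ℕ → Bool) :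
    (delT l).map (ev z) = delimit (l.map (ev z)) := by
  unfold delT
  induction l with
  | nil => rfl
  | cons e l ih =>
    have e1 : (((e :: l).flatMap fun e => [(false, true, 0), e]) ++ [(false, false, 0)]) =
      [(false, true, 0), e] ++ ((l.flatMap fun e => [(false, true, 0), e]) ++
        [(false, false, 0)]) := rfl
    rw [e1, List.map_append, ih]
    rfl

theorem map_ev_constT (l : List Bool) (z : ℕ → Bool) : (constT l).map (ev z) = l := by
  unfold constT
  rw [List.map_map]
  have : (ev z ∘ fun b => (false, b, 0)) = id := by
    funext b
    simp [ev]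
  rw [this, List.map_id]

/-- template of the encoding of `(x, bits 0 p z, bits 2 q z)` -/
def tmpl (x : List Bool) (r r' : List ℕ) : List (Bool × Bool × ℕ) :=
  delT (constT (x.flatMap fun b => [true, b, false])) ++ (delT (bitsT 0 r) ++ bitsT 2 r')

theorem bitEncode_list_bool (x : List Bool) :
    bitEncode x = x.flatMap fun b => [true, b, false] := by
  induction x with
  | nil => rfl
  | cons b x ih =>
    have e1 : bitEncode (b :: x) = [true, b, false] ++ bitEncode x := rfl
    rw [e1, ih]
    rfl

theorem map_ev_tmpl (x : List Bool) (p q : ℕ) (z : ℕ → Bool) :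
    (tmpl x (List.range p) (List.range q)).map (ev z) =
      bitEncode (x, bits 0 p z, bits 2 q z) := by
  unfold tmpl
  rw [List.map_append, List.map_append, map_ev_delT, map_ev_delT, map_ev_constT, map_ev_bitsT,
    map_ev_bitsT, ← bitEncode_list_bool]
  rfl

theorem length_tmpl (x : List Bool) (r r' : List ℕ) :
    (tmpl x r r').length = 6 * x.length + 18 * r.length + 9 * r'.length + 2 := by
  unfold tmpl delT constT bitsT
  simp only [List.length_append, List.length_flatMap, List.length_cons, List.length_nil,
    List.map_const', List.sum_replicate, List.length_map, smul_eq_mul, zero_add]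
  ring

/-- universal variables -/
def univVars (r : List ℕ) : List ℕ :=
  r.flatMap fun i => [vIn (name (0, i)), vIn (name (1, i))]

theorem vIn_injective : Function.Injective vIn := by
  intro i j h
  have := name_injective h
  simpa using this

/-- Clauses for a verifier with two padded certificates. -/
theorem clauses_of_verifier {V : List Bool × List (Bool × Bool) × List (Bool × Bool) → Bool}
    (hV : IsPolyTime V) (p q : Polynomial ℕ) :
    ∃ f : List Bool → List (List (ℕ × Bool)), IsPolyTime f ∧ ∀ x : List Bool,
      (∀ β, Sat β (f x) → V (x, bits 0 (p.eval x.length) (fun i => β (vIn i)),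
        bits 2 (q.eval x.length) (fun i => β (vIn i))) = true) ∧
      (∀ z : ℕ → Bool, V (x, bits 0 (p.eval x.length) z, bits 2 (q.eval x.length) z) = true →
        ∃ β : ℕ → Bool, (∀ i, β (vIn i) = z i) ∧ Sat β (f x)) := by
  obtain ⟨t, F, hF, hF'⟩ := clauses_of_polyTime hV
  set N : Polynomial ℕ := 6 * Polynomial.X + 18 * p + 9 * q + 2 with hN
  set T : Polynomial ℕ := t.comp N with hT
  have hlen : ∀ x : List Bool, (tmpl x (List.range (p.eval x.length))
      (List.range (q.eval x.length))).length = N.eval x.length := by
    intro x
    rw [length_tmpl, hN]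
    simp only [List.length_range, Polynomial.eval_add, Polynomial.eval_mul, Polynomial.eval_ofNat,
      Polynomial.eval_X]
  refine ⟨fun x => F (T.eval x.length) (List.range ((N + T + 1).eval x.length))
    (tmpl x (List.range (p.eval x.length)) (List.range (q.eval x.length))), ?_, ?_⟩
  · refine hF ?_ ?_ ?_
    · exact pt_range_poly T pt_id
    · exact pt_range_poly (N + T + 1) pt_id
    · have h1 := pt_range_poly p (pt_id (α := List Bool))
      have h2 := pt_range_poly q (pt_id (α := List Bool))
      have e1 : IsPolyTime (fun a : List Bool => List.range (p.eval a.length)) := h1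
      have e2 : IsPolyTime (fun a : List Bool => List.range (q.eval a.length)) := h2
      unfold tmpl delT constT bitsT
      fun_prop
  · intro x
    have h := hF' (T.eval x.length) (List.range ((N + T + 1).eval x.length))
      (tmpl x (List.range (p.eval x.length)) (List.range (q.eval x.length)))
      (by rw [hlen, hT, Polynomial.eval_comp])
      (by
        intro j hj
        rw [hlen] at hj
        rw [List.mem_range]
        simp only [Polynomial.eval_add, Polynomial.eval_one]
        omega)
    constructor
    · intro β hβ
      exact h.1 β hβ _ (map_ev_tmpl x _ _ _)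
    · intro z hz
      exact h.2 z _ (map_ev_tmpl x _ _ _) hz

theorem exists_extend (g : ℕ → ℕ → Bool) : ∃ z : ℕ → Bool, ∀ j i, z (name (j, i)) = g j i := by
  refine ⟨Function.extend (fun p : ℕ × ℕ => name p) (fun p => g p.1 p.2) (fun _ => false), ?_⟩
  intro j i
  have hinj : Function.Injective (fun p : ℕ × ℕ => name p) := name_injective
  exact hinj.extend_apply (fun p : ℕ × ℕ => g p.1 p.2) (fun _ => false) (j, i)

theorem exists_extend_vIn (z : ℕ → Bool) : ∃ α : ℕ → Bool, ∀ i, α (vIn i) = z i :=
  ⟨Function.extend vIn z (fun _ => false), fun i => vIn_injective.extend_apply z _ i⟩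

theorem univVars_nodup (n : ℕ) : (univVars (List.range n)).Nodup := by
  unfold univVars
  rw [List.nodup_flatMap]
  constructor
  · intro i _
    simp only [List.nodup_cons, List.mem_singleton, List.not_mem_nil, not_false_eq_true,
      List.nodup_nil, and_true]
    intro h
    have := name_injective (vIn_injective h)
    simp at this
  · refine List.Pairwise.imp ?_ List.nodup_range
    intro i j hij
    rw [Function.onFun, List.disjoint_left]
    intro v hv hv'
    simp only [List.mem_cons, List.not_mem_nil, or_false] at hv hv'
    rcases hv with rfl | rfl <;> rcases hv' with h | h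
    · have := name_injective (vIn_injective h)
      simp at this; exact hij this
    · have := name_injective (vIn_injective h)
      simp at this
    · have := name_injective (vIn_injective h)
      simp at this
    · have := name_injective (vIn_injective h)
      simp at this; exact hij this

/-- Cook-Levin for two quantifier blocks. -/
theorem cookLevin_two (p q : Polynomial ℕ) {R : List Bool × List Bool × List Bool → Bool}
    (hR : IsPolyTime R) :
    ∃ (U : List Bool → List ℕ) (f : List Bool → List (List (ℕ × Bool))),
      IsPolyTime U ∧ IsPolyTime f ∧ (∀ x, (U x).Nodup) ∧ ∀ x : List Bool,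
        ((∀ u : List Bool, u.length ≤ p.eval x.length →
          ∃ w : List Bool, w.length ≤ q.eval x.length ∧ R (x, u, w) = true) ↔
        (∀ α : ℕ → Bool, ∃ β : ℕ → Bool, (∀ v ∈ U x, β v = α v) ∧ Sat β (f x))) := by
  have hV : IsPolyTime (fun a : List Bool × List (Bool × Bool) × List (Bool × Bool) =>
      R (a.1, unpad a.2.1, unpad a.2.2)) := by
    refine pt_comp hR ?_
    unfold unpad
    fun_prop
  obtain ⟨f, hf, hf'⟩ := clauses_of_verifier hV p q
  refine ⟨fun x => univVars (List.range (p.eval x.length)), f, ?_, hf,
    fun x => univVars_nodup _, ?_⟩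
  · have e1 : IsPolyTime (fun a : List Bool => List.range (p.eval a.length)) :=
      pt_range_poly p (pt_id (α := List Bool))
    unfold univVars vIn
    fun_prop
  · intro x
    obtain ⟨h1, h2⟩ := hf' x
    simp only at h1 h2
    constructor
    · intro h α
      obtain ⟨w, hw, hRw⟩ := h (unpad (bits 0 (p.eval x.length) (fun i => α (vIn i))))
        (by
          have := unpad_length (bits 0 (p.eval x.length) (fun i => α (vIn i)))
          rwa [bits_length] at this)
      obtain ⟨z, hz⟩ := exists_extend (fun j i => if j = 2 then decide (i < w.length) else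
        if j = 3 then w.getD i false else α (vIn (name (j, i))))
      have e1 : bits 0 (p.eval x.length) z = bits 0 (p.eval x.length) (fun i => α (vIn i)) := by
        unfold bits
        simp [hz]
      have e2 : unpad (bits 2 (q.eval x.length) z) = w := by
        refine unpad_bits hw ?_ ?_
        · intro i; simp [hz]
        · intro i; simp [hz]
      obtain ⟨β, hβ, hβ'⟩ := h2 z (by rw [e1, e2]; exact hRw)
      refine ⟨β, ?_, hβ'⟩
      intro v hv
      unfold univVars at hv
      rw [List.mem_flatMap] at hv
      obtain ⟨i, _, hv⟩ := hv
      simp only [List.mem_cons, List.not_mem_nil, or_false] at hv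
      rcases hv with rfl | rfl
      · rw [hβ, hz]; simp
      · rw [hβ, hz]; simp
    · intro h u hu
      obtain ⟨z, hz⟩ := exists_extend (fun j i => if j = 0 then decide (i < u.length) else
        u.getD i false)
      obtain ⟨α, hα⟩ := exists_extend_vIn z
      obtain ⟨β, hβ, hβ'⟩ := h α
      have e1 : unpad (bits 0 (p.eval x.length) (fun i => β (vIn i))) = u := by
        have e3 : bits 0 (p.eval x.length) (fun i => β (vIn i)) = bits 0 (p.eval x.length) z := by
          unfold bits
          refine List.map_congr_left ?_
          intro i hi
          have e4 : β (vIn (name (0, i))) = z (name (0, i)) := by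
            rw [hβ _ (by unfold univVars; rw [List.mem_flatMap]; exact ⟨i, hi, by simp⟩), hα]
          have e5 : β (vIn (name (0 + 1, i))) = z (name (0 + 1, i)) := by
            rw [hβ _ (by unfold univVars; rw [List.mem_flatMap]; exact ⟨i, hi, by simp⟩), hα]
          simp only [e4, e5]
        rw [e3]
        refine unpad_bits hu ?_ ?_
        · intro i; simp [hz]
        · intro i; simp [hz]
      refine ⟨unpad (bits 2 (q.eval x.length) (fun i => β (vIn i))), ?_, ?_⟩
      · have := unpad_length (bits 2 (q.eval x.length) (fun i => β (vIn i)))
        rwa [bits_length] at this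
      · have := h1 β hβ'
        rw [e1] at this
        exact this

/-- Cook-Levin: every language in `NP` reduces in polynomial time to satisfiability of sets of
clauses. -/
theorem cookLevin {L : DecisionProblem} (hL : L ∈ NP) :
    ∃ f : List Bool → List (List (ℕ × Bool)), IsPolyTime f ∧
      ∀ x, L x = true ↔ ∃ β : ℕ → Bool, Sat β (f x) := by
  obtain ⟨q, R, hR, h⟩ := hL
  have hV : IsPolyTime (fun a : List Bool × List (Bool × Bool) × List (Bool × Bool) =>
      R (a.1, unpad a.2.2)) := by
    refine pt_comp hR ?_
    unfold unpad
    fun_prop
  obtain ⟨f, hf, hf'⟩ := clauses_of_verifier hV 0 q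
  refine ⟨f, hf, ?_⟩
  intro x
  obtain ⟨h1, h2⟩ := hf' x
  simp only at h1 h2
  rw [h x]
  constructor
  · rintro ⟨w, hw, hRw⟩
    obtain ⟨z, hz⟩ := exists_extend (fun j i => if j = 2 then decide (i < w.length) else
      w.getD i false)
    have e2 : unpad (bits 2 (q.eval x.length) z) = w := by
      refine unpad_bits hw ?_ ?_
      · intro i; simp [hz]
      · intro i; simp [hz]
    obtain ⟨β, _, hβ⟩ := h2 z (by rw [e2]; exact hRw)
    exact ⟨β, hβ⟩
  · rintro ⟨β, hβ⟩
    refine ⟨_, ?_, h1 β hβ⟩
    have := unpad_length (bits 2 (q.eval x.length) (fun i => β (vIn i)))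
    rwa [bits_length] at this

end Pool.Agent.Lib.CookLevin
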