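import Pool.Agent.Lib.PolyTime.Main

/-!
# Stack machines with finite control and their description by clauses

`MM C K A`: in control state `c` the machine looks at the top of the stack `stk c`, and then
changes state and keeps, pops or pushes.  The run is described by clauses over the variables
`vSt t c` (at time `t` the state is `c`), `vHt t k j` (stack `k` has height `j`) and
`vCell t k j a` (position `j`, counted from the bottom, of stack `k` holds `a`).
-/

namespace Pool.Agent.Lib.CookLevin

open Pool.Agent.Lib.PolyTime N68a2faeb N487b59b3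

/-- what happens to the stack that is looked at -/
inductive Act (A : Type) : Type
  | keep | pop | push (a : A)

/-- the effect of an action on the stack (top first) -/
def Act.app {A : Type} : Act A → List A → List A
  | .keep, l => l
  | .pop, l => l.tail
  | .push a, l => a :: l

/-- a machine with finitely many stacks -/
structure MM (C K A : Type) : Type where
  /-- the stack looked at in state `c` -/
  stk : C → K
  /-- the next state -/
  nxt : C → Option A → C
  /-- the action -/
  act : C → Option A → Act A

namespace MM

variable {C K A : Type} (M : MM C K A)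

/-- one step of the machine -/
def step [DecidableEq K] (cfg : C × (K → List A)) : C × (K → List A) :=
  (M.nxt cfg.1 (cfg.2 (M.stk cfg.1)).head?,
    Function.update cfg.2 (M.stk cfg.1)
      ((M.act cfg.1 (cfg.2 (M.stk cfg.1)).head?).app (cfg.2 (M.stk cfg.1))))

/-- the states `cs`, stacks `ks` and symbols `as` are closed under the steps -/
structure Closed (cs : List C) (ks : List K) (as : List A) : Prop where
  ks : ∀ k, k ∈ ks
  nxtNone : ∀ c ∈ cs, M.nxt c none ∈ cs
  nxtSome : ∀ c ∈ cs, ∀ a ∈ as, M.nxt c (some a) ∈ cs
  pushNone : ∀ c ∈ cs, ∀ b, M.act c none = .push b → b ∈ as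
  pushSome : ∀ c ∈ cs, ∀ a ∈ as, ∀ b, M.act c (some a) = .push b → b ∈ as

/-- well-formed configurations -/
def WF (cs : List C) (as : List A) (cfg : C × (K → List A)) : Prop :=
  cfg.1 ∈ cs ∧ ∀ k, ∀ a ∈ cfg.2 k, a ∈ as

theorem WF.step [DecidableEq K] {cs : List C} {ks : List K} {as : List A}
    (hM : M.Closed cs ks as) {cfg : C × (K → List A)} (h : WF cs as cfg) :
    WF cs as (M.step cfg) := by
  obtain ⟨h1, h2⟩ := h
  obtain ⟨c, S⟩ := cfg
  simp only at h1 h2
  constructor
  · simp only [MM.step]
    cases ho : (S (M.stk c)).head? with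
    | none => exact hM.nxtNone c h1
    | some a => exact hM.nxtSome c h1 a (h2 _ a (List.mem_of_head? ho))
  · intro k a ha
    simp only [MM.step] at ha
    by_cases hk : k = M.stk c
    · subst hk
      rw [Function.update_self] at ha
      cases ho : (S (M.stk c)).head? with
      | none =>
        rw [ho] at ha
        cases hact : M.act c none with
        | keep => rw [hact] at ha; exact h2 _ a ha
        | pop => rw [hact] at ha; exact h2 _ a (List.mem_of_mem_tail ha)
        | push b =>
          rw [hact] at ha
          simp only [Act.app, List.mem_cons] at ha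
          rcases ha with rfl | ha
          · exact hM.pushNone c h1 _ hact
          · exact h2 _ a ha
      | some o =>
        have ho' := h2 _ o (List.mem_of_head? ho)
        rw [ho] at ha
        cases hact : M.act c (some o) with
        | keep => rw [hact] at ha; exact h2 _ a ha
        | pop => rw [hact] at ha; exact h2 _ a (List.mem_of_mem_tail ha)
        | push b =>
          rw [hact] at ha
          simp only [Act.app, List.mem_cons] at ha
          rcases ha with rfl | ha
          · exact hM.pushSome c h1 o ho' _ hact
          · exact h2 _ a ha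
    · rw [Function.update_of_ne hk] at ha
      exact h2 k a ha

theorem length_step [DecidableEq K] (cfg : C × (K → List A)) (k : K) :
    ((M.step cfg).2 k).length ≤ (cfg.2 k).length + 1 := by
  obtain ⟨c, S⟩ := cfg
  simp only [MM.step]
  by_cases hk : k = M.stk c
  · subst hk
    rw [Function.update_self]
    cases M.act c (S (M.stk c)).head? with
    | keep => simp [Act.app]
    | pop => simp [Act.app]; omega
    | push b => simp [Act.app]
  · rw [Function.update_of_ne hk]
    omega

end MM

/-- an assignment satisfies a set of clauses -/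
def Sat (β : ℕ → Bool) (φ : List (List (ℕ × Bool))) : Prop := ∀ c ∈ φ, ∃ l ∈ c, β l.1 = l.2

theorem Sat.append_iff {β : ℕ → Bool} {φ ψ : List (List (ℕ × Bool))} :
    Sat β (φ ++ ψ) ↔ Sat β φ ∧ Sat β ψ := by
  simp only [Sat, List.mem_append]
  constructor
  · intro h
    exact ⟨fun c hc => h c (Or.inl hc), fun c hc => h c (Or.inr hc)⟩
  · rintro ⟨h1, h2⟩ c (hc | hc)
    · exact h1 c hc
    · exact h2 c hc

theorem Sat.cons_iff {β : ℕ → Bool} {c : List (ℕ × Bool)} {ψ : List (List (ℕ × Bool))} :
    Sat β (c :: ψ) ↔ (∃ l ∈ c, β l.1 = l.2) ∧ Sat β ψ := by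
  simp [Sat]

theorem Sat.nil (β : ℕ → Bool) : Sat β [] := by simp [Sat]

theorem Sat.flatMap_iff {ι : Type} {β : ℕ → Bool} {L : List ι}
    {f : ι → List (List (ℕ × Bool))} : Sat β (L.flatMap f) ↔ ∀ i ∈ L, Sat β (f i) := by
  simp only [Sat, List.mem_flatMap]
  constructor
  · intro h i hi c hc
    exact h c ⟨i, hi, hc⟩
  · rintro h c ⟨i, hi, hc⟩
    exact h i hi c hc

theorem Sat.map_iff {ι : Type} {β : ℕ → Bool} {L : List ι}
    {f : ι → List (ℕ × Bool)} : Sat β (L.map f) ↔ ∀ i ∈ L, ∃ l ∈ f i, β l.1 = l.2 := by
  simp [Sat]

/-- the clause saying that the variables `P` imply the variable `q` -/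
def imp (P : List ℕ) (q : ℕ) : List (ℕ × Bool) := (q, true) :: P.map (fun p => (p, false))

theorem imp_iff {β : ℕ → Bool} {P : List ℕ} {q : ℕ} :
    (∃ l ∈ imp P q, β l.1 = l.2) ↔ ((∀ p ∈ P, β p = true) → β q = true) := by
  simp only [imp, List.mem_cons, List.mem_map, exists_eq_or_imp]
  constructor
  · rintro (h | ⟨l, ⟨p, hp, rfl⟩, h⟩) hP
    · exact h
    · rw [hP p hp] at h
      simp at h
  · intro h
    by_cases hP : ∀ p ∈ P, β p = true
    · exact Or.inl (h hP)
    · push Not at hP
      obtain ⟨p, hp, hp'⟩ := hP
      exact Or.inr ⟨_, ⟨p, hp, rfl⟩, by simpa using hp'⟩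

section Clauses

variable {C K A : Type} (M : MM C K A) (ci : C → ℕ) (ki : K → ℕ) (ai : A → ℕ)

/-- the input variables -/
def vIn (i : ℕ) : ℕ := name ((0, 0, 0, i, 0) : ℕ × ℕ × ℕ × ℕ × ℕ)

/-- at time `t` the state is `c` -/
def vSt (t : ℕ) (c : C) : ℕ := name ((t, 1, ci c, 0, 0) : ℕ × ℕ × ℕ × ℕ × ℕ)

/-- at time `t` the stack `k` has height `j` -/
def vHt (t : ℕ) (k : K) (j : ℕ) : ℕ := name ((t, 2, ki k, j, 0) : ℕ × ℕ × ℕ × ℕ × ℕ)

/-- at time `t` the stack `k` has symbol `a` at position `j` (from the bottom) -/
def vCell (t : ℕ) (k : K) (j : ℕ) (a : A) : ℕ :=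
  name ((t, 3, ki k, j, ai a) : ℕ × ℕ × ℕ × ℕ × ℕ)

/-- is it a pop? -/
def Act.isPop {A : Type} : Act A → Bool
  | .pop => true
  | _ => false

/-- the new height, given the old height `h`, `hm = h - 1`, `hp = h + 1` -/
def Act.height {A : Type} (h hm hp : ℕ) : Act A → ℕ
  | .keep => h
  | .pop => hm
  | .push _ => hp

/-- the pushed symbol -/
def Act.pushed {A : Type} : Act A → List A
  | .push b => [b]
  | _ => []

/-- the premises describing the situation on the stack looked at -/
def prem (t : ℕ) (c : C) (o : Option A) (h hm : ℕ) : List ℕ :=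
  vSt ci t c :: vHt ki t (M.stk c) h ::
    (match o with
      | none => []
      | some a => [vCell ki ai t (M.stk c) hm a])

/-- clauses for one situation -/
def caseCl (as : List A) (t : ℕ) (js : List ℕ) (c : C) (o : Option A) (h hm hp : ℕ) :
    List (List (ℕ × Bool)) :=
  imp (prem M ci ki ai t c o h hm) (vSt ci (t + 1) (M.nxt c o)) ::
  imp (prem M ci ki ai t c o h hm) (vHt ki (t + 1) (M.stk c) ((M.act c o).height h hm hp)) ::
  ((M.act c o).pushed.map fun b => imp (prem M ci ki ai t c o h hm)
      (vCell ki ai (t + 1) (M.stk c) h b)) ++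
  js.flatMap fun j => as.flatMap fun a =>
    if (M.act c o).isPop && decide (j = hm) then [] else
      [imp (vCell ki ai t (M.stk c) j a :: prem M ci ki ai t c o h hm)
        (vCell ki ai (t + 1) (M.stk c) j a)]

/-- clauses for a stack that is not looked at -/
def frameCl (as : List A) (t : ℕ) (js : List ℕ) (c : C) (k : K) : List (List (ℕ × Bool)) :=
  js.flatMap fun j =>
    imp [vSt ci t c, vHt ki t k j] (vHt ki (t + 1) k j) ::
      as.flatMap fun a => [imp [vSt ci t c, vCell ki ai t k j a] (vCell ki ai (t + 1) k j a)]

/-- the clauses for the step from time `t` to time `t + 1` -/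
noncomputable def stepCl (cs : List C) (ks : List K) (as : List A) (t : ℕ) (js : List ℕ) :
    List (List (ℕ × Bool)) :=
  cs.flatMap fun c =>
    caseCl M ci ki ai as t js c none 0 0 1 ++
    (js.flatMap fun j => as.flatMap fun a =>
      caseCl M ci ki ai as t js c (some a) (j + 1) j (j + 1 + 1)) ++
    (open Classical in ks.flatMap fun k => if k = M.stk c then [] else
      frameCl ci ki ai as t js c k)

variable {M ci ki ai}

/-- `β` makes all facts about the configuration at time `t` true -/
structure Good (ci : C → ℕ) (ki : K → ℕ) (ai : A → ℕ) (β : ℕ → Bool) (t : ℕ)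
    (cfg : C × (K → List A)) : Prop where
  st : β (vSt ci t cfg.1) = true
  ht : ∀ k, β (vHt ki t k (cfg.2 k).length) = true
  cell : ∀ k j a, (cfg.2 k).reverse[j]? = some a → β (vCell ki ai t k j a) = true

theorem app_reverse_getElem? {l : List A} {act : Act A} {j : ℕ} {a : A}
    (h : (act.app l).reverse[j]? = some a) :
    (l.reverse[j]? = some a ∧ ¬ (act.isPop = true ∧ j = l.length - 1)) ∨
      (act = .push a ∧ j = l.length) := by
  cases act with
  | keep => exact Or.inl ⟨h, by simp [Act.isPop]⟩
  | pop =>
    left
    cases l with
    | nil => simp [Act.app] at h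
    | cons x l =>
      simp only [Act.app, List.tail_cons] at h
      have hj : j < l.reverse.length := by
        rw [List.getElem?_eq_some_iff] at h
        exact h.1
      rw [List.reverse_cons, List.getElem?_append_left hj]
      refine ⟨h, ?_⟩
      rintro ⟨_, hj'⟩
      simp at hj hj'
      omega
  | push b =>
    simp only [Act.app, List.reverse_cons] at h
    by_cases hj : j < l.reverse.length
    · rw [List.getElem?_append_left hj] at h
      exact Or.inl ⟨h, by simp [Act.isPop]⟩
    · right
      rw [List.getElem?_append_right (by omega)] at h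
      have : j - l.reverse.length = 0 := by
        by_contra hne
        rw [List.getElem?_eq_none (by simp at hne hj ⊢; omega)] at h
        simp at h
      rw [this] at h
      simp only [List.length_reverse] at this hj
      simp at h
      subst h
      exact ⟨rfl, by omega⟩

theorem app_reverse_getElem?_of {l : List A} {act : Act A} {j : ℕ} {a : A}
    (h : l.reverse[j]? = some a) (h' : ¬ (act.isPop = true ∧ j = l.length - 1)) :
    (act.app l).reverse[j]? = some a := by
  have hj : j < l.length := by
    rw [List.getElem?_eq_some_iff] at h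
    simpa using h.1
  cases act with
  | keep => exact h
  | pop =>
    cases l with
    | nil => simp at hj
    | cons x l =>
      simp only [Act.app, List.tail_cons]
      simp only [Act.isPop, true_and, List.length_cons, Nat.add_sub_cancel] at h' hj
      rw [List.reverse_cons, List.getElem?_append_left (by simp; omega)] at h
      exact h
  | push b =>
    simp only [Act.app, List.reverse_cons]
    rw [List.getElem?_append_left (by simpa using hj)]
    exact h

theorem length_app (l : List A) (act : Act A) :
    (act.app l).length = act.height l.length (l.length - 1) (l.length + 1) := by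
  cases act <;> simp [Act.app, Act.height]

/-- a satisfying assignment makes the facts about the next configuration true -/
theorem Good.step [DecidableEq K] {cs : List C} {ks : List K} {as : List A}
    (hks : ∀ k, k ∈ ks) {β : ℕ → Bool}
    {t : ℕ} {js : List ℕ} (hsat : Sat β (stepCl M ci ki ai cs ks as t js))
    {cfg : C × (K → List A)} (hg : Good ci ki ai β t cfg) (hwf : MM.WF cs as cfg)
    (hjs : ∀ k, ∀ j ≤ (cfg.2 k).length, j ∈ js) : Good ci ki ai β (t + 1) (M.step cfg) := by
  obtain ⟨c, S⟩ := cfg
  obtain ⟨g1, g2, g3⟩ := hg
  obtain ⟨w1, w2⟩ := hwf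
  simp only at g1 g2 g3 w1 w2 hjs
  have hc := Sat.flatMap_iff.mp hsat c w1
  rw [Sat.append_iff, Sat.append_iff] at hc
  obtain ⟨⟨hnone, hsome⟩, hframe⟩ := hc
  set l := S (M.stk c) with hl
  -- the situation clauses
  have hcase : ∃ o, l.head? = o ∧
      Sat β (caseCl M ci ki ai as t js c o l.length (l.length - 1) (l.length + 1)) ∧
      (∀ p ∈ prem M ci ki ai t c o l.length (l.length - 1), β p = true) := by
    cases hL : l with
    | nil =>
      refine ⟨none, rfl, hnone, ?_⟩
      intro p hp
      simp only [prem, List.mem_cons, List.not_mem_nil, or_false] at hp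
      rcases hp with rfl | rfl
      · exact g1
      · have := g2 (M.stk c)
        rw [← hl, hL] at this
        exact this
    | cons a l' =>
      have ha : a ∈ as := w2 (M.stk c) a (by rw [← hl, hL]; simp)
      have h1 := Sat.flatMap_iff.mp hsome l'.length
        (hjs (M.stk c) l'.length (by rw [← hl, hL]; simp))
      have h2 := Sat.flatMap_iff.mp h1 a ha
      refine ⟨some a, rfl, h2, ?_⟩
      intro p hp
      simp only [prem, List.mem_cons, List.not_mem_nil, or_false] at hp
      rcases hp with rfl | rfl | rfl
      · exact g1
      · have := g2 (M.stk c)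
        rw [← hl, hL] at this
        exact this
      · refine g3 (M.stk c) _ a ?_
        rw [← hl, hL]
        simp
  obtain ⟨o, ho, hsat', hprem⟩ := hcase
  unfold caseCl at hsat'
  rw [List.cons_append, List.cons_append, Sat.cons_iff, Sat.cons_iff, Sat.append_iff, imp_iff,
    imp_iff] at hsat'
  obtain ⟨s1, s2, s3, s4⟩ := hsat'
  simp only [MM.step]
  rw [← hl, ho]
  constructor
  · exact s1 hprem
  · intro k
    dsimp only
    by_cases hk : k = M.stk c
    · subst hk
      rw [Function.update_self, length_app]
      exact s2 hprem
    · rw [Function.update_of_ne hk]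
      have h1 := Sat.flatMap_iff.mp hframe k (hks k)
      simp only [hk, if_false] at h1
      have h2 := Sat.flatMap_iff.mp h1 (S k).length (hjs k _ le_rfl)
      rw [Sat.cons_iff, imp_iff] at h2
      refine h2.1 ?_
      intro p hp
      simp only [List.mem_cons, List.not_mem_nil, or_false] at hp
      rcases hp with rfl | rfl
      · exact g1
      · exact g2 k
  · intro k j a hkja
    dsimp only at hkja
    by_cases hk : k = M.stk c
    · subst hk
      rw [Function.update_self] at hkja
      rcases app_reverse_getElem? hkja with ⟨h1, h2⟩ | ⟨h1, h2⟩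
      · have hj : j < l.length := by
          rw [List.getElem?_eq_some_iff] at h1
          simpa using h1.1
        have ha : a ∈ as := w2 (M.stk c) a (by
          have := List.mem_of_getElem? h1
          simpa using this)
        have h3 := Sat.flatMap_iff.mp s4 j (hjs (M.stk c) j (by rw [← hl]; omega))
        have h4 := Sat.flatMap_iff.mp h3 a ha
        have h5 : ¬ (((M.act c o).isPop && decide (j = l.length - 1)) = true) := by
          simpa using h2
        rw [if_neg h5, Sat.cons_iff, imp_iff] at h4
        refine h4.1 ?_
        intro p hp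
        rw [List.mem_cons] at hp
        rcases hp with rfl | hp
        · exact g3 (M.stk c) j a h1
        · exact hprem p hp
      · rw [Sat.map_iff] at s3
        have h3 := s3 a (by rw [h1]; simp [Act.pushed])
        rw [imp_iff] at h3
        rw [h2]
        exact h3 hprem
    · rw [Function.update_of_ne hk] at hkja
      have hj : j < (S k).length := by
        rw [List.getElem?_eq_some_iff] at hkja
        simpa using hkja.1
      have ha : a ∈ as := w2 k a (by
          have := List.mem_of_getElem? hkja
          simpa using this)
      have h1 := Sat.flatMap_iff.mp hframe k (hks k)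
      simp only [hk, if_false] at h1
      have h2 := Sat.flatMap_iff.mp h1 j (hjs k _ hj.le)
      rw [Sat.cons_iff] at h2
      have h3 := Sat.flatMap_iff.mp h2.2 a ha
      rw [Sat.cons_iff, imp_iff] at h3
      refine h3.1 ?_
      intro p hp
      simp only [List.mem_cons, List.not_mem_nil, or_false] at hp
      rcases hp with rfl | rfl
      · exact g1
      · exact g3 k j a hkja

/-- `β` describes exactly the configuration at time `t` -/
structure Exact (ci : C → ℕ) (ki : K → ℕ) (ai : A → ℕ) (cs : List C) (as : List A)
    (β : ℕ → Bool) (t : ℕ) (cfg : C × (K → List A)) : Prop where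
  st : ∀ c ∈ cs, β (vSt ci t c) = true ↔ cfg.1 = c
  ht : ∀ k j, β (vHt ki t k j) = true ↔ (cfg.2 k).length = j
  cell : ∀ k j, ∀ a ∈ as, β (vCell ki ai t k j a) = true ↔ (cfg.2 k).reverse[j]? = some a

/-- exact assignments satisfy the step clauses -/
theorem Exact.sat [DecidableEq K] {cs : List C} {ks : List K} {as : List A}
    (hM : M.Closed cs ks as) {β : ℕ → Bool}
    {t : ℕ} {js : List ℕ}
    {cfg : C × (K → List A)} (he : Exact ci ki ai cs as β t cfg)
    (he' : Exact ci ki ai cs as β (t + 1) (M.step cfg)) :
    Sat β (stepCl M ci ki ai cs ks as t js) := by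
  obtain ⟨c₀, S⟩ := cfg
  obtain ⟨e1, e2, e3⟩ := he
  obtain ⟨e1', e2', e3'⟩ := he'
  simp only at e1 e2 e3
  refine Sat.flatMap_iff.mpr (fun c hc => ?_)
  have hcase : ∀ (o : Option A) (h hm hp : ℕ), (∀ a, o = some a → a ∈ as) →
      (∀ a, o = some a → hm = h - 1) → hp = h + 1 → (o = none → h = 0 ∧ hm = 0) →
      (∀ a, o = some a → 0 < h) →
      Sat β (caseCl M ci ki ai as t js c o h hm hp) := by
    intro o h hm hp hoas hhm hhp hnone hpos
    have hprem : (∀ p ∈ prem M ci ki ai t c o h hm, β p = true) →
        c₀ = c ∧ (S (M.stk c)).length = h ∧ (S (M.stk c)).head? = o ∧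
          hm = (S (M.stk c)).length - 1 ∧ hp = (S (M.stk c)).length + 1 := by
      intro hP
      have h1 : c₀ = c := (e1 c hc).mp (hP _ (by simp [prem]))
      have h2 : (S (M.stk c)).length = h := (e2 _ _).mp (hP _ (by simp [prem]))
      refine ⟨h1, h2, ?_⟩
      cases o with
      | none =>
        have h3 := hnone rfl
        rw [h3.1] at h2
        refine ⟨?_, by rw [h2, h3.2], by rw [hhp, h3.1, h2]⟩
        rw [List.length_eq_zero_iff] at h2
        rw [h2]; rfl
      | some a =>
        have h3 := (e3 (M.stk c) hm a (hoas a rfl)).mp (hP _ (by simp [prem]))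
        have h4 := hhm a rfl
        have h5 := hpos a rfl
        refine ⟨?_, by rw [h4, h2], by rw [hhp, h2]⟩
        cases hL : S (M.stk c) with
        | nil => rw [hL] at h2; simp at h2; omega
        | cons x l =>
          rw [hL] at h2 h3
          have h6 : hm = l.length := by rw [h4, ← h2]; simp
          rw [h6] at h3
          simpa using h3
    unfold caseCl
    rw [List.cons_append, List.cons_append, Sat.cons_iff, Sat.cons_iff, Sat.append_iff, imp_iff,
      imp_iff, Sat.map_iff, Sat.flatMap_iff]
    have hstep : (∀ p ∈ prem M ci ki ai t c o h hm, β p = true) →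
        M.step (c₀, S) = (M.nxt c o, Function.update S (M.stk c)
          ((M.act c o).app (S (M.stk c)))) := by
      intro hP
      obtain ⟨h1, h2, h3, h4, h5⟩ := hprem hP
      subst h1
      simp only [MM.step, h3]
    have hnxt : M.nxt c o ∈ cs := by
      cases o with
      | none => exact hM.nxtNone c hc
      | some a => exact hM.nxtSome c hc a (hoas a rfl)
    refine ⟨?_, ?_, ?_, ?_⟩
    · intro hP
      refine (e1' _ hnxt).mpr ?_
      rw [hstep hP]
    · intro hP
      obtain ⟨h1, h2, h3, h4, h5⟩ := hprem hP
      refine (e2' _ _).mpr ?_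
      rw [hstep hP]
      simp only [Function.update_self]
      rw [length_app, h4, h5, h2]
    · intro b hb
      rw [imp_iff]
      intro hP
      obtain ⟨h1, h2, h3, h4, h5⟩ := hprem hP
      have hact : M.act c o = .push b := by
        cases hact : M.act c o with
        | keep => rw [hact] at hb; simp [Act.pushed] at hb
        | pop => rw [hact] at hb; simp [Act.pushed] at hb
        | push b' =>
          rw [hact] at hb
          simp only [Act.pushed, List.mem_singleton] at hb
          rw [hb]
      have hbas : b ∈ as := by
        cases o with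
        | none => exact hM.pushNone c hc b hact
        | some a => exact hM.pushSome c hc a (hoas a rfl) b hact
      refine (e3' _ _ b hbas).mpr ?_
      rw [hstep hP]
      simp only [Function.update_self]
      rw [hact]
      simp only [Act.app, List.reverse_cons]
      rw [List.getElem?_append_right (by simp [h2])]
      simp [h2]
    · intro j _
      rw [Sat.flatMap_iff]
      intro a ha
      split_ifs with hpop
      · exact Sat.nil β
      · rw [Sat.cons_iff, imp_iff]
        refine ⟨?_, Sat.nil β⟩
        intro hP
        have hP' : ∀ p ∈ prem M ci ki ai t c o h hm, β p = true :=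
          fun p hp => hP p (List.mem_cons_of_mem _ hp)
        obtain ⟨h1, h2, h3, h4, h5⟩ := hprem hP'
        have h6 := (e3 _ _ a ha).mp (hP _ List.mem_cons_self)
        refine (e3' _ _ a ha).mpr ?_
        rw [hstep hP']
        simp only [Function.update_self]
        refine app_reverse_getElem?_of h6 ?_
        rw [← h4]
        simpa using hpop
  rw [Sat.append_iff, Sat.append_iff]
  refine ⟨⟨?_, ?_⟩, ?_⟩
  · exact hcase none 0 0 1 (by simp) (by simp) rfl (by simp) (by simp)
  · refine Sat.flatMap_iff.mpr (fun j _ => Sat.flatMap_iff.mpr (fun a ha => ?_))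
    refine hcase (some a) (j + 1) j (j + 1 + 1) ?_ (by simp) rfl (by simp) (by simp)
    intro a' ha'
    rw [Option.some.injEq] at ha'
    rw [← ha']
    exact ha
  · refine Sat.flatMap_iff.mpr (fun k _ => ?_)
    split_ifs with hk
    · exact Sat.nil β
    · refine Sat.flatMap_iff.mpr (fun j _ => ?_)
      rw [Sat.cons_iff, imp_iff]
      have hstep : c₀ = c → (M.step (c₀, S)).2 k = S k := by
        intro h1
        subst h1
        simp only [MM.step]
        rw [Function.update_of_ne hk]
      constructor
      · intro hP
        have h1 : c₀ = c := (e1 c hc).mp (hP _ (by simp))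
        have h2 : (S k).length = j := (e2 _ _).mp (hP _ (by simp))
        refine (e2' _ _).mpr ?_
        rw [hstep h1, h2]
      · refine Sat.flatMap_iff.mpr (fun a ha => ?_)
        rw [Sat.cons_iff, imp_iff]
        refine ⟨?_, Sat.nil β⟩
        intro hP
        have h1 : c₀ = c := (e1 c hc).mp (hP _ (by simp))
        have h2 := (e3 k j a ha).mp (hP _ (by simp))
        refine (e3' _ _ a ha).mpr ?_
        rw [hstep h1, h2]

end Clauses

end Pool.Agent.Lib.CookLevin
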