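import Pool.Agent.Lib.CookLevin.Micro

/-!
# The tableau of a run of a stack machine
-/

namespace Pool.Agent.Lib.CookLevin

open Pool.Agent.Lib.PolyTime N68a2faeb N487b59b3

variable {C K A : Type} (M : MM C K A) (ci : C → ℕ) (ki : K → ℕ) (ai : A → ℕ)

/-- value of a template entry: entry `(true, _, i)` is the input variable `i`,
`(false, b, _)` is the constant `b` -/
def ev (z : ℕ → Bool) (e : Bool × Bool × ℕ) : Bool := if e.1 then z e.2.2 else e.2.1

/-- clauses for the input stack -/
def inCl (k₀ : K) (sb : Bool → A) (tp : List (Bool × Bool × ℕ)) : List (List (ℕ × Bool)) :=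
  tp.reverse.zipIdx.flatMap fun e =>
    if e.1.1 then
      [[(vIn e.1.2.2, false), (vCell ki ai 0 k₀ e.2 (sb true), true)],
       [(vIn e.1.2.2, true), (vCell ki ai 0 k₀ e.2 (sb false), true)]]
    else if e.1.2.1 then [[(vCell ki ai 0 k₀ e.2 (sb true), true)]]
    else [[(vCell ki ai 0 k₀ e.2 (sb false), true)]]

/-- clauses for the initial configuration -/
noncomputable def initCl (ks : List K) (c₀ : C) (k₀ : K) (sb : Bool → A)
    (tp : List (Bool × Bool × ℕ)) : List (List (ℕ × Bool)) :=
  [(vSt ci 0 c₀, true)] ::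
  (ks.flatMap fun k => [[(vHt ki 0 k (open Classical in if k = k₀ then tp.length else 0), true)]]) ++
  inCl ki ai k₀ sb tp

/-- the whole set of clauses -/
noncomputable def tabCl (cs : List C) (ks : List K) (as : List A) (c₀ : C) (k₀ k₁ : K)
    (sb : Bool → A) (sf : A) (T : ℕ) (js : List ℕ) (tp : List (Bool × Bool × ℕ)) :
    List (List (ℕ × Bool)) :=
  initCl ci ki ai ks c₀ k₀ sb tp ++
  ((List.range T).flatMap fun t => stepCl M ci ki ai cs ks as t js) ++
  [[(vCell ki ai T k₁ 0 sf, false)]]

/-- the initial configuration for the input `z` -/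
noncomputable def cfg0 (c₀ : C) (k₀ : K) (sb : Bool → A) (tp : List (Bool × Bool × ℕ))
    (z : ℕ → Bool) : C × (K → List A) :=
  (c₀, open Classical in fun k => if k = k₀ then tp.map (fun e => sb (ev z e)) else [])

variable {M ci ki ai}

theorem WF.iterate [DecidableEq K] {cs : List C} {ks : List K} {as : List A}
    (hM : M.Closed cs ks as) {cfg : C × (K → List A)} (h : MM.WF cs as cfg) (t : ℕ) :
    MM.WF cs as (M.step^[t] cfg) := by
  induction t with
  | zero => exact h
  | succ t ih =>
    rw [Function.iterate_succ_apply']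
    exact MM.WF.step M hM ih

theorem length_iterate_step [DecidableEq K] (cfg : C × (K → List A)) (k : K) (t : ℕ) :
    ((M.step^[t] cfg).2 k).length ≤ (cfg.2 k).length + t := by
  induction t with
  | zero => simp
  | succ t ih =>
    rw [Function.iterate_succ_apply']
    have := MM.length_step M (M.step^[t] cfg) k
    omega

theorem cfg0_length (c₀ : C) (k₀ : K) (sb : Bool → A) (tp : List (Bool × Bool × ℕ))
    (z : ℕ → Bool) (k : K) : ((cfg0 c₀ k₀ sb tp z).2 k).length ≤ tp.length := by
  unfold cfg0
  by_cases hk : k = k₀ <;> simp [hk]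

theorem cfg0_wf {cs : List C} {as : List A} {c₀ : C} {k₀ : K} {sb : Bool → A}
    (hc₀ : c₀ ∈ cs) (hsb : ∀ b, sb b ∈ as)
    (tp : List (Bool × Bool × ℕ)) (z : ℕ → Bool) : MM.WF cs as (cfg0 c₀ k₀ sb tp z) := by
  refine ⟨hc₀, ?_⟩
  intro k a ha
  unfold cfg0 at ha
  by_cases hk : k = k₀
  · simp only [hk, if_true, List.mem_map] at ha
    obtain ⟨e, _, rfl⟩ := ha
    exact hsb _
  · simp [hk] at ha

/-- Completeness: in a satisfying assignment, the final symbol is not the rejecting one. -/
theorem tab_complete [DecidableEq K] {cs : List C} {ks : List K} {as : List A}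
    (hM : M.Closed cs ks as) {c₀ : C} {k₀ k₁ : K} {sb : Bool → A} {sf : A} {T : ℕ} {js : List ℕ}
    {tp : List (Bool × Bool × ℕ)} (hc₀ : c₀ ∈ cs) (hsb : ∀ b, sb b ∈ as)
    (hjs : ∀ j ≤ tp.length + T, j ∈ js) {β : ℕ → Bool}
    (hsat : Sat β (tabCl M ci ki ai cs ks as c₀ k₀ k₁ sb sf T js tp)) :
    ((M.step^[T] (cfg0 c₀ k₀ sb tp (fun i => β (vIn i)))).2 k₁).reverse[0]? ≠ some sf := by
  unfold tabCl initCl at hsat
  rw [Sat.append_iff, Sat.append_iff, List.cons_append, Sat.cons_iff, Sat.append_iff,
    Sat.flatMap_iff, Sat.flatMap_iff] at hsat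
  obtain ⟨⟨⟨h1, h2, h3⟩, h4⟩, h5⟩ := hsat
  set z : ℕ → Bool := fun i => β (vIn i) with hz
  have hwf := cfg0_wf (k₀ := k₀) hc₀ hsb tp z
  have hgood0 : Good ci ki ai β 0 (cfg0 c₀ k₀ sb tp z) := by
    constructor
    · simpa [cfg0] using h1
    · intro k
      have := h2 k (hM.ks k)
      rw [Sat.cons_iff] at this
      have h6 := this.1
      simp only [List.mem_singleton, exists_eq_left] at h6
      unfold cfg0
      by_cases hk : k = k₀
      · simpa [hk] using h6
      · simpa [hk] using h6
    · intro k j a hkja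
      unfold cfg0 at hkja
      by_cases hk : k = k₀
      · subst hk
        simp only [if_true] at hkja
        rw [← List.map_reverse, List.getElem?_map, Option.map_eq_some_iff] at hkja
        obtain ⟨e, he, rfl⟩ := hkja
        have h6 := Sat.flatMap_iff.mp h3 (e, j) (by
          rw [List.mem_zipIdx_iff_getElem?]
          exact he)
        unfold ev
        by_cases he1 : e.1 = true
        · simp only [he1, if_true] at h6 ⊢
          rw [Sat.cons_iff, Sat.cons_iff] at h6
          obtain ⟨h7, h8, _⟩ := h6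
          cases hze : z e.2.2 with
          | true =>
            have : β (vIn e.2.2) = true := hze
            simpa [this] using h7
          | false =>
            have : β (vIn e.2.2) = false := hze
            simpa [this] using h8
        · simp only [Bool.not_eq_true] at he1
          rw [he1] at h6 ⊢
          simp only [Bool.false_eq_true, if_false] at h6 ⊢
          cases he2 : e.2.1 with
          | true =>
            rw [he2, if_pos rfl, Sat.cons_iff] at h6
            simpa using h6.1
          | false =>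
            rw [he2, if_neg (by simp), Sat.cons_iff] at h6
            simpa using h6.1
      · simp [hk] at hkja
  have hgood : ∀ t ≤ T, Good ci ki ai β t (M.step^[t] (cfg0 c₀ k₀ sb tp z)) := by
    intro t
    induction t with
    | zero => intro _; exact hgood0
    | succ t ih =>
      intro ht
      rw [Function.iterate_succ_apply']
      refine Good.step hM.ks (h4 t (List.mem_range.mpr (by omega))) (ih (by omega))
        (WF.iterate hM hwf t) ?_
      intro k j hj
      apply hjs
      have h6 := length_iterate_step (M := M) (cfg0 c₀ k₀ sb tp z) k t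
      have h7 := cfg0_length c₀ k₀ sb tp z k
      omega
  intro hcon
  have h6 := (hgood T le_rfl).cell k₁ 0 sf hcon
  rw [Sat.cons_iff] at h5
  have h7 := h5.1
  simp only [List.mem_singleton, exists_eq_left] at h7
  rw [h6] at h7
  simp at h7

/-- the assignment describing a run -/
noncomputable def asg [DecidableEq K] (M : MM C K A) (ci : C → ℕ) (ki : K → ℕ) (ai : A → ℕ)
    (cs : List C) (as : List A) (cfg : C × (K → List A)) (z : ℕ → Bool) (n : ℕ) : Bool :=
  open Classical in
  decide ((∃ i, n = vIn i ∧ z i = true) ∨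
    (∃ t, ∃ c ∈ cs, n = vSt ci t c ∧ (M.step^[t] cfg).1 = c) ∨
    (∃ t k j, n = vHt ki t k j ∧ ((M.step^[t] cfg).2 k).length = j) ∨
    (∃ t k j, ∃ a ∈ as, n = vCell ki ai t k j a ∧ ((M.step^[t] cfg).2 k).reverse[j]? = some a))

theorem asg_vIn [DecidableEq K] {cs : List C} {as : List A} {cfg : C × (K → List A)}
    {z : ℕ → Bool} (i : ℕ) : asg M ci ki ai cs as cfg z (vIn i) = z i := by
  classical
  unfold asg
  rw [Bool.eq_iff_iff, decide_eq_true_iff]
  constructor
  · rintro (⟨j, h1, h2⟩ | ⟨t, c, _, h1, _⟩ | ⟨t, k, j, h1, _⟩ | ⟨t, k, j, a, _, h1, _⟩)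
    · have := name_injective h1
      simp only [Prod.mk.injEq, true_and, and_true] at this
      rw [this]; exact h2
    · have := name_injective h1
      simp at this
    · have := name_injective h1
      simp at this
    · have := name_injective h1
      simp at this
  · intro h
    exact Or.inl ⟨i, rfl, h⟩

theorem asg_exact [DecidableEq K] {cs : List C} {as : List A} {cfg : C × (K → List A)}
    {z : ℕ → Bool} (hci : ∀ c ∈ cs, ∀ c' ∈ cs, ci c = ci c' → c = c')
    (hki : Function.Injective ki) (hai : ∀ a ∈ as, ∀ a' ∈ as, ai a = ai a' → a = a') (t : ℕ) :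
    Exact ci ki ai cs as (asg M ci ki ai cs as cfg z) t (M.step^[t] cfg) := by
  constructor
  · intro c hc
    unfold asg
    classical
    rw [decide_eq_true_iff]
    constructor
    · rintro (⟨j, h1, h2⟩ | ⟨t, c', hc', h1, h2⟩ | ⟨t, k, j, h1, _⟩ | ⟨t, k, j, a, _, h1, _⟩)
      · have := name_injective h1
        simp at this
      · have := name_injective h1
        simp only [Prod.mk.injEq, true_and, and_true] at this
        rw [this.1, hci c hc c' hc' this.2]
        exact h2
      · have := name_injective h1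
        simp at this
      · have := name_injective h1
        simp at this
    · intro h
      exact Or.inr (Or.inl ⟨t, c, hc, rfl, h⟩)
  · intro k j
    unfold asg
    classical
    rw [decide_eq_true_iff]
    constructor
    · rintro (⟨j, h1, h2⟩ | ⟨t, c', hc', h1, h2⟩ | ⟨t, k', j', h1, h2⟩ | ⟨t, k, j, a, _, h1, _⟩)
      · have := name_injective h1
        simp at this
      · have := name_injective h1
        simp at this
      · have := name_injective h1
        simp only [Prod.mk.injEq, true_and, and_true] at this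
        rw [this.1, hki this.2.1, this.2.2]
        exact h2
      · have := name_injective h1
        simp at this
    · intro h
      exact Or.inr (Or.inr (Or.inl ⟨t, k, j, rfl, h⟩))
  · intro k j a ha
    unfold asg
    classical
    rw [decide_eq_true_iff]
    constructor
    · rintro (⟨j, h1, h2⟩ | ⟨t, c', hc', h1, h2⟩ | ⟨t, k', j', h1, h2⟩ |
        ⟨t, k', j', a', ha', h1, h2⟩)
      · have := name_injective h1
        simp at this
      · have := name_injective h1
        simp at this
      · have := name_injective h1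
        simp at this
      · have := name_injective h1
        simp only [Prod.mk.injEq, true_and] at this
        rw [this.1, hki this.2.1, this.2.2.1, hai a ha a' ha' this.2.2.2]
        exact h2
    · intro h
      exact Or.inr (Or.inr (Or.inr ⟨t, k, j, a, ha, rfl, h⟩))

/-- Soundness: if the final symbol is not the rejecting one, then the clauses are satisfiable. -/
theorem tab_sound [DecidableEq K] {cs : List C} {ks : List K} {as : List A}
    (hM : M.Closed cs ks as) {c₀ : C} {k₀ k₁ : K} {sb : Bool → A} {sf : A} {T : ℕ} {js : List ℕ}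
    {tp : List (Bool × Bool × ℕ)} (hc₀ : c₀ ∈ cs) (hsb : ∀ b, sb b ∈ as) (hsf : sf ∈ as)
    (hci : ∀ c ∈ cs, ∀ c' ∈ cs, ci c = ci c' → c = c')
    (hki : Function.Injective ki) (hai : ∀ a ∈ as, ∀ a' ∈ as, ai a = ai a' → a = a')
    (z : ℕ → Bool)
    (hfin : ((M.step^[T] (cfg0 c₀ k₀ sb tp z)).2 k₁).reverse[0]? ≠ some sf) :
    ∃ β : ℕ → Bool, (∀ i, β (vIn i) = z i) ∧
      Sat β (tabCl M ci ki ai cs ks as c₀ k₀ k₁ sb sf T js tp) := by
  set β := asg M ci ki ai cs as (cfg0 c₀ k₀ sb tp z) z with hβ
  have hex : ∀ t, Exact ci ki ai cs as β t (M.step^[t] (cfg0 c₀ k₀ sb tp z)) :=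
    fun t => asg_exact hci hki hai t
  have hin : ∀ i, β (vIn i) = z i := fun i => asg_vIn i
  refine ⟨β, hin, ?_⟩
  unfold tabCl initCl
  rw [Sat.append_iff, Sat.append_iff, List.cons_append, Sat.cons_iff, Sat.append_iff,
    Sat.flatMap_iff, Sat.flatMap_iff]
  refine ⟨⟨⟨?_, ?_, ?_⟩, ?_⟩, ?_⟩
  · simp only [List.mem_singleton, exists_eq_left]
    exact ((hex 0).st c₀ hc₀).mpr rfl
  · intro k _
    rw [Sat.cons_iff]
    refine ⟨?_, Sat.nil β⟩
    simp only [List.mem_singleton, exists_eq_left]
    refine ((hex 0).ht k _).mpr ?_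
    simp only [Function.iterate_zero, id_eq, cfg0]
    by_cases hk : k = k₀ <;> simp [hk]
  · unfold inCl
    rw [Sat.flatMap_iff]
    rintro ⟨e, j⟩ hej
    rw [List.mem_zipIdx_iff_getElem?] at hej
    simp only at hej
    have hcell : β (vCell ki ai 0 k₀ j (sb (ev z e))) = true := by
      refine ((hex 0).cell k₀ j _ (hsb _)).mpr ?_
      simp only [Function.iterate_zero, id_eq, cfg0, if_true]
      rw [← List.map_reverse, List.getElem?_map, hej]
      rfl
    dsimp only
    unfold ev at hcell
    by_cases he1 : e.1 = true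
    · simp only [he1, if_true] at hcell ⊢
      rw [Sat.cons_iff, Sat.cons_iff]
      cases hze : z e.2.2 with
      | true =>
        rw [hze] at hcell
        refine ⟨⟨(vCell ki ai 0 k₀ j (sb true), true), by simp, hcell⟩,
          ⟨_, List.mem_cons_self, ?_⟩, Sat.nil β⟩
        rw [hin]; exact hze
      | false =>
        rw [hze] at hcell
        refine ⟨⟨_, List.mem_cons_self, ?_⟩, ⟨(vCell ki ai 0 k₀ j (sb false), true),
          by simp, hcell⟩, Sat.nil β⟩
        rw [hin]; exact hze
    · simp only [Bool.not_eq_true] at he1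
      rw [he1] at hcell ⊢
      simp only [Bool.false_eq_true, if_false] at hcell ⊢
      cases he2 : e.2.1 with
      | true =>
        rw [he2] at hcell
        rw [if_pos rfl, Sat.cons_iff]
        exact ⟨⟨_, List.mem_cons_self, hcell⟩, Sat.nil β⟩
      | false =>
        rw [he2] at hcell
        rw [if_neg (by simp), Sat.cons_iff]
        exact ⟨⟨_, List.mem_cons_self, hcell⟩, Sat.nil β⟩
  · intro t _
    refine Exact.sat hM (hex t) ?_
    have := hex (t + 1)
    rw [Function.iterate_succ_apply'] at this
    exact this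
  · rw [Sat.cons_iff]
    refine ⟨⟨_, List.mem_cons_self, ?_⟩, Sat.nil β⟩
    dsimp only
    rw [Bool.eq_false_iff]
    intro h
    exact hfin (((hex T).cell k₁ 0 sf hsf).mp h)

/-! ### the clauses are computed in polynomial time -/

theorem pt_vSt {α : Type} [N487b59b3 α] {t : α → ℕ} (ht : IsPolyTime t) (c : C) :
    IsPolyTime (fun a => vSt ci (t a) c) := by
  unfold vSt
  fun_prop

theorem pt_vHt {α : Type} [N487b59b3 α] {t j : α → ℕ} (ht : IsPolyTime t) (k : K)
    (hj : IsPolyTime j) : IsPolyTime (fun a => vHt ki (t a) k (j a)) := by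
  unfold vHt
  fun_prop

theorem pt_vCell {α : Type} [N487b59b3 α] {t j : α → ℕ} (ht : IsPolyTime t) (k : K)
    (hj : IsPolyTime j) (a : A) : IsPolyTime (fun x => vCell ki ai (t x) k (j x) a) := by
  unfold vCell
  fun_prop

theorem pt_vIn {α : Type} [N487b59b3 α] {i : α → ℕ} (hi : IsPolyTime i) :
    IsPolyTime (fun x => vIn (i x)) := by
  unfold vIn
  fun_prop

theorem pt_imp {α : Type} [N487b59b3 α] {P : α → List ℕ} {q : α → ℕ} (hP : IsPolyTime P)
    (hq : IsPolyTime q) : IsPolyTime (fun x => imp (P x) (q x)) := by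
  unfold imp
  fun_prop

theorem pt_prem {α : Type} [N487b59b3 α] {t h hm : α → ℕ} (ht : IsPolyTime t) (c : C)
    (o : Option A) (hh : IsPolyTime h) (hhm : IsPolyTime hm) :
    IsPolyTime (fun x => prem M ci ki ai (t x) c o (h x) (hm x)) := by
  have h1 := pt_vSt (ci := ci) ht c
  have h2 := pt_vHt (ki := ki) ht (M.stk c) hh
  unfold prem
  cases o with
  | none => fun_prop
  | some a =>
    have h3 := pt_vCell (ki := ki) (ai := ai) ht (M.stk c) hhm a
    fun_prop

theorem pt_caseCl {α : Type} [N487b59b3 α] (as : List A) {t h hm hp : α → ℕ} {js : α → List ℕ}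
    (ht : IsPolyTime t) (hjs : IsPolyTime js) (c : C)
    (o : Option A) (hh : IsPolyTime h) (hhm : IsPolyTime hm) (hhp : IsPolyTime hp) :
    IsPolyTime (fun x => caseCl M ci ki ai as (t x) (js x) c o (h x) (hm x) (hp x)) := by
  have hprem := pt_prem (M := M) (ci := ci) (ki := ki) (ai := ai) ht c o hh hhm
  have ht1 := pt_succ ht
  have h1 := pt_imp hprem (pt_vSt (ci := ci) ht1 (M.nxt c o))
  have h2 : IsPolyTime (fun x => imp (prem M ci ki ai (t x) c o (h x) (hm x))
      (vHt ki (t x + 1) (M.stk c) ((M.act c o).height (h x) (hm x) (hp x)))) := by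
    refine pt_imp hprem (pt_vHt ht1 _ ?_)
    cases M.act c o with
    | keep => exact hh
    | pop => exact hhm
    | push b => exact hhp
  have h3 : IsPolyTime (fun x => ((M.act c o).pushed.map fun b =>
      imp (prem M ci ki ai (t x) c o (h x) (hm x)) (vCell ki ai (t x + 1) (M.stk c) (h x) b))) := by
    cases M.act c o with
    | keep => simp only [Act.pushed, List.map_nil]; exact pt_const []
    | pop => simp only [Act.pushed, List.map_nil]; exact pt_const []
    | push b =>
      simp only [Act.pushed, List.map_cons, List.map_nil]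
      exact pt_cons (pt_imp hprem (pt_vCell ht1 _ hh b)) (pt_const [])
  have h4 : IsPolyTime (fun x => (js x).flatMap fun j => as.flatMap fun a =>
      if (M.act c o).isPop && decide (j = hm x) then [] else
      [imp (vCell ki ai (t x) (M.stk c) j a :: prem M ci ki ai (t x) c o (h x) (hm x))
        (vCell ki ai (t x + 1) (M.stk c) j a)]) := by
    refine pt_flatMap hjs (pt_flatMap_const as (fun a _ => ?_))
    have e1 : IsPolyTime (fun p : α × ℕ => t p.1) := pt_comp ht pt_fst'
    have e2 : IsPolyTime (fun p : α × ℕ => t p.1 + 1) := pt_succ e1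
    have e3 : IsPolyTime (fun p : α × ℕ => p.2) := pt_snd'
    have e4 : IsPolyTime (fun p : α × ℕ => prem M ci ki ai (t p.1) c o (h p.1) (hm p.1)) :=
      pt_comp hprem pt_fst'
    have e5 := pt_vCell (ki := ki) (ai := ai) e1 (M.stk c) e3 a
    have e6 := pt_vCell (ki := ki) (ai := ai) e2 (M.stk c) e3 a
    have e7 := pt_imp (pt_cons e5 e4) e6
    have e8 : IsPolyTime (fun p : α × ℕ => hm p.1) := pt_comp hhm pt_fst'
    have e9 : IsPolyTime (fun p : α × ℕ => (M.act c o).isPop && decide (p.2 = hm p.1)) := by
      fun_prop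
    have e10 := pt_cond e9 (pt_const ([] : List (List (ℕ × Bool)))) (pt_cons e7 (pt_const []))
    refine pt_congr e10 (fun p => ?_)
    cases ((M.act c o).isPop && decide (p.2 = hm p.1)) <;> simp
  unfold caseCl
  exact pt_append (pt_cons h1 (pt_cons h2 h3)) h4

theorem pt_frameCl {α : Type} [N487b59b3 α] (as : List A) {t : α → ℕ} {js : α → List ℕ}
    (ht : IsPolyTime t) (hjs : IsPolyTime js) (c : C) (k : K) :
    IsPolyTime (fun x => frameCl ci ki ai as (t x) (js x) c k) := by
  unfold frameCl
  refine pt_flatMap hjs ?_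
  have e1 : IsPolyTime (fun p : α × ℕ => t p.1) := pt_comp ht pt_fst'
  have e2 : IsPolyTime (fun p : α × ℕ => t p.1 + 1) := pt_succ e1
  have e3 : IsPolyTime (fun p : α × ℕ => p.2) := pt_snd'
  have e4 := pt_vSt (ci := ci) e1 c
  have e5 := pt_vHt (ki := ki) e1 k e3
  have e6 := pt_vHt (ki := ki) e2 k e3
  refine pt_cons (pt_imp (by fun_prop) e6) (pt_flatMap_const as (fun a _ => ?_))
  have e7 := pt_vCell (ki := ki) (ai := ai) e1 k e3 a
  have e8 := pt_vCell (ki := ki) (ai := ai) e2 k e3 a
  exact pt_cons (pt_imp (by fun_prop) e8) (pt_const [])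

theorem pt_stepCl {α : Type} [N487b59b3 α] (cs : List C) (ks : List K) (as : List A)
    {t : α → ℕ} {js : α → List ℕ}
    (ht : IsPolyTime t) (hjs : IsPolyTime js) :
    IsPolyTime (fun x => stepCl M ci ki ai cs ks as (t x) (js x)) := by
  unfold stepCl
  refine pt_flatMap_const cs (fun c _ => ?_)
  refine pt_append (pt_append ?_ ?_) ?_
  · exact pt_caseCl as ht hjs c none (pt_const 0) (pt_const 0) (pt_const 1)
  · refine pt_flatMap hjs (pt_flatMap_const as (fun a _ => ?_))
    have e1 : IsPolyTime (fun p : α × ℕ => t p.1) := pt_comp ht pt_fst'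
    have e2 : IsPolyTime (fun p : α × ℕ => js p.1) := pt_comp hjs pt_fst'
    have e3 : IsPolyTime (fun p : α × ℕ => p.2) := pt_snd'
    exact pt_caseCl as e1 e2 c (some a) (pt_succ e3) e3 (pt_succ (pt_succ e3))
  · refine pt_flatMap_const ks (fun k _ => ?_)
    by_cases hk : k = M.stk c
    · simp only [hk, if_true]; exact pt_const []
    · simp only [hk, if_false]; exact pt_frameCl as ht hjs c k

theorem pt_tabCl {α : Type} [N487b59b3 α] (cs : List C) (ks : List K) (as : List A) (c₀ : C)
    (k₀ k₁ : K) (sb : Bool → A) (sf : A) {T : α → ℕ} {js : α → List ℕ}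
    {tp : α → List (Bool × Bool × ℕ)}
    (hT : IsPolyTime (fun x => List.range (T x))) (hjs : IsPolyTime js) (htp : IsPolyTime tp) :
    IsPolyTime (fun x => tabCl M ci ki ai cs ks as c₀ k₀ k₁ sb sf (T x) (js x) (tp x)) := by
  have hT' : IsPolyTime T := pt_congr (pt_length hT) (fun a => by rw [List.length_range])
  unfold tabCl initCl
  refine pt_append (pt_append (pt_append ?_ ?_) ?_) ?_
  · refine pt_cons (pt_const _) (pt_flatMap_const ks (fun k _ => ?_))
    by_cases hk : k = k₀
    · simp only [hk, if_true]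
      have e1 := pt_vHt (ki := ki) (pt_const (α := α) 0) k₀ (pt_length htp)
      fun_prop
    · simp only [hk, if_false]
      exact pt_const _
  · unfold inCl
    refine pt_flatMap (pt_zipIdx (pt_reverse htp)) ?_
    have e1 : IsPolyTime (fun p : α × ((Bool × Bool × ℕ) × ℕ) => p.2.1.1) := by fun_prop
    have e2 : IsPolyTime (fun p : α × ((Bool × Bool × ℕ) × ℕ) => vIn p.2.1.2.2) :=
      pt_vIn (by fun_prop)
    have e3 := pt_vCell (ki := ki) (ai := ai)
      (pt_const (α := α × ((Bool × Bool × ℕ) × ℕ)) 0) k₀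
      (j := fun p => p.2.2) (by fun_prop) (sb true)
    have e4 := pt_vCell (ki := ki) (ai := ai)
      (pt_const (α := α × ((Bool × Bool × ℕ) × ℕ)) 0) k₀
      (j := fun p => p.2.2) (by fun_prop) (sb false)
    have e5 : IsPolyTime (fun p : α × ((Bool × Bool × ℕ) × ℕ) => p.2.1.2.1) := by fun_prop
    have e6 := pt_cond e1
      (f := fun p => [[(vIn p.2.1.2.2, false), (vCell ki ai 0 k₀ p.2.2 (sb true), true)],
       [(vIn p.2.1.2.2, true), (vCell ki ai 0 k₀ p.2.2 (sb false), true)]])
      (by fun_prop)
      (pt_cond e5 (f := fun p => [[(vCell ki ai 0 k₀ p.2.2 (sb true), true)]])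
        (by fun_prop) (g := fun p => [[(vCell ki ai 0 k₀ p.2.2 (sb false), true)]]) (by fun_prop))
    refine pt_congr e6 (fun p => ?_)
    cases p.2.1.1 <;> cases p.2.1.2.1 <;> simp
  · refine pt_flatMap hT ?_
    exact pt_stepCl cs ks as pt_snd' (pt_comp hjs pt_fst')
  · have := pt_vCell (ki := ki) (ai := ai) hT' k₁ (pt_const (α := α) 0) sf
    fun_prop

end Pool.Agent.Lib.CookLevin
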