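import Pool.Agent.Lib.CookLevin.Main

/-!
# Clauses of length three
-/

namespace Pool.Agent.Lib.CookLevin

open Turing Pool.Agent.Lib.PolyTime N68a2faeb N487b59b3

/-- the old variable `v` -/
def ov (v : ℕ) : ℕ := name ((0, v, 0) : ℕ × ℕ × ℕ)

/-- the new variable number `i` for clause `c` -/
def nv (c i : ℕ) : ℕ := name ((1, c, i) : ℕ × ℕ × ℕ)

/-- equivalent set of clauses of length three -/
def three (φ : List (List (ℕ × Bool))) : List (List (ℕ × Bool)) :=
  φ.zipIdx.flatMap fun e =>
    [[(nv e.2 0, true), (nv e.2 0, true), (nv e.2 0, true)]] ++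
    (e.1.zipIdx.map fun l => [(nv e.2 l.2, false), (ov l.1.1, l.1.2), (nv e.2 (l.2 + 1), true)]) ++
    [[(nv e.2 e.1.length, false), (nv e.2 e.1.length, false), (nv e.2 e.1.length, false)]]

theorem three_length (φ : List (List (ℕ × Bool))) : ∀ c ∈ three φ, c.length = 3 := by
  intro c hc
  simp only [three, List.mem_flatMap, List.mem_append, List.mem_singleton, List.mem_map] at hc
  obtain ⟨e, _, (rfl | ⟨l, _, rfl⟩) | rfl⟩ := hc <;> rfl

theorem pt_three {α : Type} [N487b59b3 α] {φ : α → List (List (ℕ × Bool))} (h : IsPolyTime φ) :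
    IsPolyTime (fun a => three (φ a)) := by
  have h1 : IsPolyTime (fun φ : List (List (ℕ × Bool)) => three φ) := by
    unfold three nv ov
    fun_prop
  exact pt_comp h1 h

theorem sat_of_three {β : ℕ → Bool} {φ : List (List (ℕ × Bool))} (h : Sat β (three φ)) :
    Sat (fun v => β (ov v)) φ := by
  intro cl hcl
  obtain ⟨c, hc, rfl⟩ := List.mem_iff_getElem.mp hcl
  have h1 := Sat.flatMap_iff.mp h (φ[c], c) (by
    rw [List.mem_zipIdx_iff_getElem?]
    simp [hc])
  rw [Sat.append_iff, Sat.append_iff, Sat.map_iff, Sat.cons_iff, Sat.cons_iff] at h1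
  obtain ⟨⟨⟨h2, _⟩, h3⟩, ⟨h4, _⟩⟩ := h1
  simp only [List.mem_cons, List.not_mem_nil, or_false, or_self, exists_eq_left] at h2 h4
  by_contra hcon
  push Not at hcon
  have hall : ∀ i ≤ (φ[c]).length, β (nv c i) = true := by
    intro i
    induction i with
    | zero => intro _; exact h2
    | succ i ih =>
      intro hi
      have h5 := ih (by omega)
      obtain ⟨l, hl, h6⟩ := h3 ((φ[c])[i], i) (by
        rw [List.mem_zipIdx_iff_getElem?]
        simp)
      simp only [List.mem_cons, List.not_mem_nil, or_false] at hl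
      rcases hl with rfl | rfl | rfl
      · rw [h5] at h6; simp at h6
      · exact absurd h6 (hcon _ (List.getElem_mem _))
      · exact h6
  have := hall _ le_rfl
  rw [this] at h4
  simp at h4

theorem three_sat {α : ℕ → Bool} {φ : List (List (ℕ × Bool))} (h : Sat α φ) :
    ∃ β : ℕ → Bool, (∀ v, β (ov v) = α v) ∧ Sat β (three φ) := by
  classical
  set β : ℕ → Bool := fun n => decide ((∃ v, n = ov v ∧ α v = true) ∨
    (∃ c i, n = nv c i ∧ ∃ cl, φ[c]? = some cl ∧ ∃ j, i ≤ j ∧ ∃ l, cl[j]? = some l ∧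
      α l.1 = l.2 ∧ ∀ j' < i, ∀ l', cl[j']? = some l' → α l'.1 ≠ l'.2)) with hβ
  have hov : ∀ v, β (ov v) = α v := by
    intro v
    rw [Bool.eq_iff_iff]
    rw [hβ]
    simp only [decide_eq_true_eq]
    constructor
    · rintro (⟨v', h1, h2⟩ | ⟨c, i, h1, _⟩)
      · have := name_injective h1
        simp only [Prod.mk.injEq, true_and, and_true] at this
        rw [this]; exact h2
      · have := name_injective h1
        simp at this
    · intro h
      exact Or.inl ⟨v, rfl, h⟩
  have hnv : ∀ c i, β (nv c i) = true ↔ ∃ cl, φ[c]? = some cl ∧ ∃ j, i ≤ j ∧ ∃ l,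
      cl[j]? = some l ∧ α l.1 = l.2 ∧ ∀ j' < i, ∀ l', cl[j']? = some l' → α l'.1 ≠ l'.2 := by
    intro c i
    rw [hβ]
    simp only [decide_eq_true_eq]
    constructor
    · rintro (⟨v', h1, h2⟩ | ⟨c', i', h1, h2⟩)
      · have := name_injective h1
        simp at this
      · have := name_injective h1
        simp only [Prod.mk.injEq, true_and] at this
        rw [this.1, this.2]
        exact h2
    · intro h
      exact Or.inr ⟨c, i, rfl, h⟩
  refine ⟨β, hov, ?_⟩
  unfold three
  rw [Sat.flatMap_iff]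
  rintro ⟨cl, c⟩ hcl
  rw [List.mem_zipIdx_iff_getElem?] at hcl
  simp only at hcl
  obtain ⟨l, hl, hl'⟩ := h cl (List.mem_of_getElem? hcl)
  obtain ⟨j, hj, rfl⟩ := List.mem_iff_getElem.mp hl
  rw [Sat.append_iff, Sat.append_iff, Sat.map_iff, Sat.cons_iff, Sat.cons_iff]
  refine ⟨⟨⟨⟨_, List.mem_cons_self, ?_⟩, Sat.nil β⟩, ?_⟩, ⟨⟨_, List.mem_cons_self, ?_⟩, Sat.nil β⟩⟩
  · rw [hnv]
    exact ⟨cl, hcl, j, Nat.zero_le j, cl[j], by simp, hl', by simp⟩
  · rintro ⟨l, i⟩ hli
    rw [List.mem_zipIdx_iff_getElem?] at hli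
    simp only at hli ⊢
    by_cases h1 : β (nv c i) = true
    · by_cases h2 : α l.1 = l.2
      · refine ⟨(ov l.1, l.2), by simp, ?_⟩
        rw [hov]; exact h2
      · refine ⟨(nv c (i + 1), true), by simp, ?_⟩
        rw [hnv] at h1
        obtain ⟨cl', hcl', j', hj', l'', hl'', h3, h4⟩ := h1
        rw [hcl, Option.some.injEq] at hcl'
        subst hcl'
        change β (nv c (i + 1)) = true
        rw [hnv]
        refine ⟨cl, hcl, j', ?_, l'', hl'', h3, ?_⟩
        · rcases Nat.eq_or_lt_of_le hj' with rfl | h5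
          · rw [hli, Option.some.injEq] at hl''
            subst hl''
            exact absurd h3 h2
          · exact h5
        · intro k hk l' hl'
          rcases Nat.lt_succ_iff_lt_or_eq.mp hk with h5 | rfl
          · exact h4 k h5 l' hl'
          · rw [hli, Option.some.injEq] at hl'
            subst hl'
            exact h2
    · refine ⟨(nv c i, false), by simp, ?_⟩
      simpa using h1
  · change β (nv c cl.length) = false
    rw [Bool.eq_false_iff]
    intro h1
    rw [hnv] at h1
    obtain ⟨cl', hcl', j', hj', l'', hl'', _⟩ := h1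
    rw [hcl, Option.some.injEq] at hcl'
    subst hcl'
    have := (List.getElem?_eq_some_iff.mp hl'').1
    omega

/-- Cook-Levin for clauses of length three. -/
theorem cookLevin_three {L : DecisionProblem} (hL : L ∈ NP) :
    ∃ f : List Bool → List (List (ℕ × Bool)), IsPolyTime f ∧
      (∀ x, ∀ c ∈ f x, c.length = 3) ∧
      ∀ x, L x = true ↔ ∃ β : ℕ → Bool, Sat β (f x) := by
  obtain ⟨f, hf, h⟩ := cookLevin hL
  refine ⟨fun x => three (f x), pt_three hf, fun x => three_length (f x), fun x => ?_⟩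
  rw [h x]
  constructor
  · rintro ⟨α, hα⟩
    obtain ⟨β, _, hβ⟩ := three_sat hα
    exact ⟨β, hβ⟩
  · rintro ⟨β, hβ⟩
    exact ⟨_, sat_of_three hβ⟩

/-- Polynomial time many-one reductions compose. -/
theorem manyOne_trans {α : Type} [N487b59b3 α] {A : DecisionProblem} {f : List Bool → α}
    {g : α → List Bool} {B : DecisionProblem} (hf : IsPolyTime f) (hg : IsPolyTime g)
    (h : ∀ x, A x = B (g (f x))) : ∃ r : List Bool → List Bool, IsPolyTime r ∧
      ∀ x, A x = B (r x) :=
  ⟨fun x => g (f x), pt_comp hg hf, h⟩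

end Pool.Agent.Lib.CookLevin
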